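import Pool.Agent.V7H76.AD.Spec

set_option linter.all false

open Finset
open scoped Classical

namespace Pool.Agent.V7H76.AD

theorem t_LAB : S_LAB := by
  intro P t A O lab hP hAP hOA hAO hAne hbal
  have hOne : O.Nonempty := by
    rw [nonempty_iff_ne_empty]
    rintro rfl
    have := hAne.card_pos
    simp at hAO
    exact hAne.ne_empty hAO
  set cnt : ℕ → ℕ := fun α => ((range t).filter (fun r => r / P = t / P ∧ lab r = α)).card
    with hcnt
  obtain ⟨α, hα, hmin⟩ := exists_min_image O cnt hOne
  refine ⟨α, hα, ?_⟩
  intro lab' hl hlt g β hβ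
  have hfil : (range (t + 1)).filter (fun r => r / P = g ∧ lab' r = β) ⊆
      (range t).filter (fun r => r / P = g ∧ lab r = β) ∪
        (if t / P = g ∧ α = β then {t} else ∅) := by
    intro r hr
    rw [mem_filter, mem_range] at hr
    rw [mem_union]
    rcases Nat.lt_or_eq_of_le (Nat.lt_succ_iff.1 hr.1) with h | h
    · left
      rw [mem_filter, mem_range]
      exact ⟨h, hr.2.1, by rw [← hl r h]; exact hr.2.2⟩
    · right
      subst h
      rw [if_pos ⟨hr.2.1, by rw [← hlt]; exact hr.2.2⟩]
      exact mem_singleton_self _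
  have h1 := card_le_card hfil
  have h2 := h1.trans (card_union_le _ _)
  by_cases hg : t / P = g ∧ α = β
  · rw [if_pos hg, card_singleton] at h2
    obtain ⟨rfl, rfl⟩ := hg
    -- the minimum is small
    have h3 : O.card * cnt α ≤ ∑ α' ∈ O, cnt α' := by
      have := card_nsmul_le_sum O cnt (cnt α) hmin
      simpa using this
    have h4 : ∑ α' ∈ O, cnt α' ≤ ((range t).filter (fun r => r / P = t / P)).card := by
      rw [hcnt]
      have h5 := card_biUnion (s := O)
        (t := fun α' => (range t).filter (fun r => r / P = t / P ∧ lab r = α')) (by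
          intro x _ y _ hxy
          show Disjoint _ _
          rw [disjoint_left]
          intro r hr hr'
          rw [mem_filter] at hr hr'
          exact hxy (hr.2.2.symm.trans hr'.2.2))
      rw [← h5]
      refine card_le_card ?_
      intro r hr
      rw [mem_biUnion] at hr
      obtain ⟨x, _, hr⟩ := hr
      rw [mem_filter] at hr ⊢
      exact ⟨hr.1, hr.2.1⟩
    have h5 : ((range t).filter (fun r => r / P = t / P)).card ≤ P - 1 := by
      have h6 : (range t).filter (fun r => r / P = t / P) ⊆ Ico (t / P * P) t := by
        intro r hr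
        rw [mem_filter, mem_range] at hr
        rw [mem_Ico]
        refine ⟨?_, hr.1⟩
        rw [← hr.2]
        exact Nat.div_mul_le_self r P
      refine (card_le_card h6).trans ?_
      rw [Nat.card_Ico]
      have h7 := Nat.div_add_mod t P
      have h8 := Nat.mod_lt t hP
      have h9 : t / P * P = P * (t / P) := mul_comm _ _
      omega
    have h6 : O.card * cnt α ≤ P - 1 := h3.trans (h4.trans h5)
    have h7 : A.card * cnt α ≤ 2 * (P - 1) := by
      calc A.card * cnt α ≤ (2 * O.card) * cnt α := Nat.mul_le_mul_right _ hAO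
        _ = 2 * (O.card * cnt α) := by ring
        _ ≤ _ := Nat.mul_le_mul_left _ h6
    calc A.card * _ ≤ A.card * (cnt α + 1) := Nat.mul_le_mul_left _ h2
      _ = A.card * cnt α + A.card := by ring
      _ ≤ 2 * (P - 1) + P := Nat.add_le_add h7 hAP
      _ ≤ 3 * P := by omega
  · rw [if_neg hg, card_empty, Nat.add_zero] at h2
    exact (Nat.mul_le_mul_left _ h2).trans (hbal g β hβ)

end Pool.Agent.V7H76.AD
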