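import Mathlib

/-!
# Admissible sequences with large reciprocal sum: definitions and statements

`b : ℕ → ℕ` is a sequence (0-indexed); the first `n0` terms are old, new terms are added in runs
of exactly `P` terms, each run inside one cell of length `H = 32 P²` (a cell has `2P` windows of
length `M = 16 P`, at most one new term per window).
-/

open Finset
open scoped Classical

namespace Pool.Agent.V7H76.AD

/-- partial sums -/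
def S (b : ℕ → ℕ) (l : ℕ) : ℕ := ∑ j ∈ range l, b j

/-- `z` is a sum of consecutive terms among the first `n` terms. -/
def Dg (b : ℕ → ℕ) (n z : ℕ) : Prop := ∃ j l, j < l ∧ l ≤ n ∧ S b l = S b j + z

/-- The integer state of the (new) index `j`: `3` between the runs, `-8 α` and `8 α + 1`
alternately inside a run with label `α`. -/
def st (K : ℕ) (lab : ℕ → ℕ) (j : ℕ) : ℤ :=
  if j % K = 0 then 3 else if (j % K) % 2 = 1 then -8 * (lab (j / K) : ℤ)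
    else 8 * (lab (j / K) : ℤ) + 1

/-- The four residue classes used by a run with label `α`. -/
def Cls (M α : ℕ) (z : ℤ) : Prop :=
  z ≡ -8 * (α : ℤ) - 3 [ZMOD (M : ℤ)] ∨ z ≡ 16 * (α : ℤ) + 1 [ZMOD (M : ℤ)] ∨
    z ≡ -16 * (α : ℤ) - 1 [ZMOD (M : ℤ)] ∨ z ≡ 8 * (α : ℤ) + 3 [ZMOD (M : ℤ)]

/-- Indices between runs or in a run with label `α`. -/
def Jp (K : ℕ) (lab : ℕ → ℕ) (α j : ℕ) : Prop := j % K = 0 ∨ lab (j / K) = α

/-- The label `α` is blocked in the cell `c` (more than `P` of its `2P` windows are bad). -/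
def NotOK (P : ℕ) (b : ℕ → ℕ) (n c α : ℕ) : Prop :=
  P < ((Ico (c * (2 * P)) ((c + 1) * (2 * P))).filter
    (fun w => ∃ z : ℕ, z / (16 * P) = w ∧ Cls (16 * P) α z ∧ Dg b n z)).card

/-- The parameters and the conditions on the old part. -/
structure Par (P m n0 i0 q0 L : ℕ) (A : Finset ℕ) (b0 : ℕ → ℕ) : Prop where
  hP : P = 2 ^ m
  hm : 1 ≤ m
  hA : ∀ α ∈ A, α < P
  hF : ThreeAPFree (A : Set ℕ)
  hN : 2048 * (2 * m + 1) ≤ A.card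
  hL : 16384 * L ≤ A.card ^ 2
  hn : 1 ≤ n0
  hb : 32 * P * P ≤ b0 (n0 - 1)
  hS : S b0 n0 < 2 ^ i0
  hn2 : 256 * n0 * (16 * P) ≤ 2 ^ i0
  hi : 16 * P * P * P ≤ 2 ^ i0
  hq : q0 * (32 * P * P) = 2 ^ i0

/-- The invariant of the construction: `t` runs are done, the cells `q0 ≤ c < q` have been
processed, `U` is the set of used cells. -/
structure Inv (P n0 q0 : ℕ) (A : Finset ℕ) (b0 : ℕ → ℕ) (t q : ℕ) (b lab : ℕ → ℕ)
    (U : Finset ℕ) : Prop where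
  old : ∀ j < n0, b j = b0 j
  rng : ∀ j < t * P, q0 * (32 * P * P) ≤ b (n0 + j) ∧ b (n0 + j) < q * (32 * P * P)
  win : ∀ j, j + 1 < t * P → b (n0 + j) / (16 * P) < b (n0 + (j + 1)) / (16 * P)
  res : ∀ j ≤ t * P, (S b (n0 + j) : ℤ) - S b n0 + 3 ≡ st P lab j [ZMOD ((16 * P : ℕ) : ℤ)]
  adm : ∀ j < t * P, ¬ Dg b (n0 + j) (b (n0 + j))
  labA : ∀ r < t, lab r ∈ A
  bal : ∀ g, ∀ α ∈ A, A.card * ((range t).filter (fun r => r / P = g ∧ lab r = α)).card ≤ 3 * P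
  Usub : ∀ c ∈ U, q0 ≤ c ∧ c < q
  Ucnt : ∀ c ∈ U, P ≤ ((range (t * P)).filter (fun j => b (n0 + j) / (32 * P * P) = c)).card
  Un : ∀ c, q0 ≤ c → c < q → c ∉ U →
    A.card < 2 * (A.filter (fun α => NotOK P b (n0 + t * P) c α)).card

/-- U: the classes of `α` come only from differences of states of `α` or between runs. -/
def S_U : Prop := ∀ (P K : ℕ) (A : Finset ℕ) (lab : ℕ → ℕ) (α j l : ℕ),
  (∀ β ∈ A, β < P) → ThreeAPFree (A : Set ℕ) → α ∈ A →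
  (j % K ≠ 0 → lab (j / K) ∈ A) → (l % K ≠ 0 → lab (l / K) ∈ A) →
  Cls (16 * P) α (st K lab l - st K lab j) → Jp K lab α j ∧ Jp K lab α l

/-- BLK: the density of the indices of label `α` in an interval of indices. -/
def S_BLK : Prop := ∀ (P t : ℕ) (A : Finset ℕ) (lab : ℕ → ℕ) (α : ℕ), 1 ≤ P → A.card ≤ P →
  (∀ g, A.card * ((range t).filter (fun r => r / P = g ∧ lab r = α)).card ≤ 3 * P) →
  ∀ x y, A.card * ((Ico x y).filter (fun j => j ≤ t * P ∧ Jp P lab α j)).card ≤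
    4 * (y - x) + 8 * P * P

/-- LAB: the choice of a label: among at least half of the labels, the one least used in the
current group keeps the balance. -/
def S_LAB : Prop := ∀ (P t : ℕ) (A O : Finset ℕ) (lab : ℕ → ℕ), 1 ≤ P → A.card ≤ P → O ⊆ A →
  A.card ≤ 2 * O.card → A.Nonempty →
  (∀ g, ∀ α ∈ A, A.card * ((range t).filter (fun r => r / P = g ∧ lab r = α)).card ≤ 3 * P) →
  ∃ α ∈ O, ∀ lab' : ℕ → ℕ, (∀ r < t, lab' r = lab r) → lab' t = α →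
    ∀ g, ∀ β ∈ A,
      A.card * ((range (t + 1)).filter (fun r => r / P = g ∧ lab' r = β)).card ≤ 3 * P

/-- CON: a run of `P` terms with a label `α` that is not blocked in the cell `q`. -/
def S_CON : Prop := ∀ (P m n0 i0 q0 L : ℕ) (A : Finset ℕ) (b0 : ℕ → ℕ)
  (_ : Par P m n0 i0 q0 L A b0) (t q : ℕ) (b lab : ℕ → ℕ) (U : Finset ℕ)
  (_ : Inv P n0 q0 A b0 t q b lab U) (_ : q0 ≤ q) (α : ℕ) (_ : α ∈ A)
  (_ : ¬ NotOK P b (n0 + t * P) q α) (lab' : ℕ → ℕ) (_ : ∀ r < t, lab' r = lab r)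
  (_ : lab' t = α),
  ∃ b' : ℕ → ℕ, (∀ j < n0 + t * P, b' j = b j) ∧
    (∀ j < P, q * (32 * P * P) ≤ b' (n0 + (t * P + j)) ∧
      b' (n0 + (t * P + j)) < (q + 1) * (32 * P * P)) ∧
    (∀ j, j + 1 < P → b' (n0 + (t * P + j)) / (16 * P) <
      b' (n0 + (t * P + j + 1)) / (16 * P)) ∧
    (∀ j ≤ P, (S b' (n0 + (t * P + j)) : ℤ) - S b' n0 + 3 ≡ st P lab' (t * P + j)
      [ZMOD ((16 * P : ℕ) : ℤ)]) ∧
    (∀ j < P, ¬ Dg b' (n0 + (t * P + j)) (b' (n0 + (t * P + j))))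

/-- STEP: the invariant can be continued by one cell. -/
def S_STEP : Prop := ∀ (P m n0 i0 q0 L : ℕ) (A : Finset ℕ) (b0 : ℕ → ℕ)
  (_ : Par P m n0 i0 q0 L A b0) (t q : ℕ) (b lab : ℕ → ℕ) (U : Finset ℕ)
  (_ : Inv P n0 q0 A b0 t q b lab U) (_ : q0 ≤ q),
  ∃ (t' : ℕ) (b' lab' : ℕ → ℕ) (U' : Finset ℕ), Inv P n0 q0 A b0 t' (q + 1) b' lab' U'

/-- CNT: few dangerous numbers in the classes of `α` in each dyadic scale. -/
def S_CNT : Prop := ∀ (P m n0 i0 q0 L : ℕ) (A : Finset ℕ) (b0 : ℕ → ℕ)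
  (_ : Par P m n0 i0 q0 L A b0) (t q : ℕ) (b lab : ℕ → ℕ) (U : Finset ℕ)
  (_ : Inv P n0 q0 A b0 t q b lab U) (i : ℕ) (_ : i0 ≤ i) (_ : i < i0 + L) (α : ℕ) (_ : α ∈ A),
  32 * (16 * P) * ((Ico (2 ^ i) (2 ^ (i + 1))).filter
    (fun z : ℕ => Cls (16 * P) α z ∧ Dg b (n0 + t * P) z)).card ≤ 2 ^ i

/-- DENS: many terms in each dyadic scale, at the end of the construction. -/
def S_DENS : Prop := ∀ (P m n0 i0 q0 L : ℕ) (A : Finset ℕ) (b0 : ℕ → ℕ)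
  (_ : Par P m n0 i0 q0 L A b0) (t : ℕ) (b lab : ℕ → ℕ) (U : Finset ℕ)
  (_ : Inv P n0 q0 A b0 t (q0 * 2 ^ L) b lab U) (i : ℕ) (_ : i0 ≤ i) (_ : i < i0 + L),
  2 ^ i ≤ 64 * P * ((range (t * P)).filter
    (fun j => 2 ^ i ≤ b (n0 + j) ∧ b (n0 + j) < 2 ^ (i + 1))).card

/-- STAGE: the stage theorem. -/
def S_STAGE : Prop := ∀ (P m n0 i0 q0 L : ℕ) (A : Finset ℕ) (b0 : ℕ → ℕ)
  (_ : Par P m n0 i0 q0 L A b0),
  ∃ (b : ℕ → ℕ) (n1 : ℕ), n0 ≤ n1 ∧ (∀ j < n0, b j = b0 j) ∧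
    (∀ j, n0 ≤ j → j < n1 → 2 ^ i0 ≤ b j ∧ b j < 2 ^ (i0 + L)) ∧
    (∀ j, n0 ≤ j → j + 1 < n1 → b j < b (j + 1)) ∧
    (∀ j, n0 ≤ j → j < n1 → ¬ Dg b j (b j)) ∧
    (L : ℝ) / (128 * P) ≤ ∑ j ∈ Ico n0 n1, (1 : ℝ) / (b j : ℝ)

/-- FIN: the final statement. -/
def S_FIN : Prop := ∃ a : ℕ → ℕ, StrictMono a ∧ 1 ≤ a 0 ∧
  (∀ i k l : ℕ, k ≤ l → l < i → a i ≠ ∑ j ∈ Icc k l, a j) ∧
  ∀ ε : ℝ, 0 < ε → ∃ x₀ : ℝ, ∀ x : ℝ, x₀ ≤ x →
    (Real.log x) ^ (1 / 2 - ε) ≤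
      ∑ n ∈ (range ⌈x⌉₊).filter (fun n => (a n : ℝ) < x), (1 : ℝ) / (a n : ℝ)

end Pool.Agent.V7H76.AD
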