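import Pool.Agent.V7H76.AD.Spec2
import Pool.Agent.V7H72.AD.STEP

/-! `STEP` with `ParC` (the proof of helper72's `t_STEP`, word for word). -/

open Finset
open scoped Classical

namespace Pool.Agent.V7H76.AD

open Pool.Agent.V7H72.AD

theorem t_STEP2 : S_LAB → S_CON2 → S_STEP2 := by
  intro hLAB hCON P m n0 i0 q0 A b0 hPar t q b lab U hInv hq
  have hP1 : 1 ≤ P := by rw [hPar.hP]; exact Nat.one_le_two_pow
  have hAP : A.card ≤ P := by
    have : A ⊆ range P := fun α hα => Finset.mem_range.mpr (hPar.hA α hα)
    simpa using Finset.card_le_card this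
  have hApos : 0 < A.card := lt_of_lt_of_le (by positivity) hPar.hN
  have hAne : A.Nonempty := Finset.card_pos.mp hApos
  by_cases hcase : A.card < 2 * (A.filter (fun α => NotOK P b (n0 + t * P) q α)).card
  · -- the cell is left empty
    refine ⟨t, b, lab, U, ?_⟩
    refine ⟨hInv.old, ?_, hInv.win, hInv.res, hInv.adm, hInv.labA, hInv.bal, ?_, hInv.Ucnt, ?_⟩
    · intro j hj
      have := hInv.rng j hj
      refine ⟨this.1, this.2.trans_le ?_⟩
      exact Nat.mul_le_mul_right _ (Nat.le_succ q)
    · intro c hc
      have := hInv.Usub c hc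
      exact ⟨this.1, this.2.trans (Nat.lt_succ_self q)⟩
    · intro c hc1 hc2 hc3
      rcases Nat.lt_succ_iff_lt_or_eq.mp hc2 with h | h
      · exact hInv.Un c hc1 h hc3
      · rw [h]; exact hcase
  · -- a run in the cell `q`
    obtain ⟨α, hα, hαb⟩ := hLAB P t A (A.filter (fun α => ¬ NotOK P b (n0 + t * P) q α)) lab hP1
      hAP (Finset.filter_subset _ _) (by
        have := Finset.card_filter_add_card_filter_not (s := A)
          (fun α => NotOK P b (n0 + t * P) q α)
        omega) hAne hInv.bal
    rw [Finset.mem_filter] at hα
    set lab' : ℕ → ℕ := fun r => if r = t then α else lab r with hlab'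
    have hl1 : ∀ r < t, lab' r = lab r := fun r hr => by
      simp only [hlab']; rw [if_neg (by omega)]
    have hl2 : lab' t = α := by simp [hlab']
    obtain ⟨b', h1, h2, h3, h4, h5⟩ := hCON P m n0 i0 q0 A b0 hPar t q b lab U hInv hq α hα.1
      hα.2 lab' hl1 hl2
    have htP : (t + 1) * P = t * P + P := by ring
    have hsplit : ∀ j, j < (t + 1) * P → j < t * P ∨ ∃ j', j' < P ∧ j = t * P + j' := by
      intro j hj
      rcases Nat.lt_or_ge j (t * P) with h | h
      · exact Or.inl h
      · exact Or.inr ⟨j - t * P, by omega, by omega⟩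
    have hq32 : q * (32 * P * P) = (q * (2 * P)) * (16 * P) := by ring
    have h16 : 0 < 16 * P := by omega
    refine ⟨t + 1, b', lab', insert q U, ?_⟩
    refine ⟨?_, ?_, ?_, ?_, ?_, ?_, ?_, ?_, ?_, ?_⟩
    · -- old
      intro j hj
      rw [h1 j (by omega)]
      exact hInv.old j hj
    · -- rng
      intro j hj
      rcases hsplit j hj with h | ⟨j', hj', rfl⟩
      · rw [h1 (n0 + j) (by omega)]
        have := hInv.rng j h
        exact ⟨this.1, this.2.trans_le (Nat.mul_le_mul_right _ (Nat.le_succ q))⟩
      · have := h2 j' hj'
        exact ⟨(Nat.mul_le_mul_right _ hq).trans this.1, this.2⟩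
    · -- win
      intro j hj
      rcases Nat.lt_trichotomy (j + 1) (t * P) with h | h | h
      · rw [h1 (n0 + j) (by omega), h1 (n0 + (j + 1)) (by omega)]
        exact hInv.win j h
      · rw [h1 (n0 + j) (by omega)]
        have e1 := (hInv.rng j (by omega)).2
        have e2 := (h2 0 (by omega)).1
        have e3 : n0 + (t * P + 0) = n0 + (j + 1) := by omega
        rw [e3] at e2
        rw [hq32] at e1 e2
        exact lt_of_lt_of_le (Nat.div_lt_of_lt_mul (by rw [mul_comm]; exact e1))
          ((Nat.le_div_iff_mul_le h16).mpr e2)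
      · obtain ⟨j', hj'⟩ : ∃ j', j = t * P + j' := ⟨j - t * P, by omega⟩
        subst hj'
        have := h3 j' (by omega)
        exact this
    · -- res
      intro j hj
      rcases Nat.lt_or_ge j (t * P) with h | h
      · rw [S_congr h1 (show n0 + j ≤ n0 + t * P by omega),
          S_congr h1 (show n0 ≤ n0 + t * P by omega)]
        have e1 := hInv.res j h.le
        have e2 : st P lab' j = st P lab j := by
          unfold st
          have : j / P < t := (Nat.div_lt_iff_lt_mul (by omega)).mpr h
          rw [hl1 _ this]
        rw [e2]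
        exact e1
      · obtain ⟨j', hj'⟩ : ∃ j', j = t * P + j' := ⟨j - t * P, by omega⟩
        subst hj'
        exact h4 j' (by omega)
    · -- adm
      intro j hj
      rcases hsplit j hj with h | ⟨j', hj', rfl⟩
      · rw [h1 (n0 + j) (by omega)]
        intro hD
        exact hInv.adm j h (Dg_anti h1 (by omega) hD)
      · exact h5 j' hj'
    · -- labA
      intro r hr
      rcases Nat.lt_succ_iff_lt_or_eq.mp hr with h | h
      · rw [hl1 r h]; exact hInv.labA r h
      · rw [h, hl2]; exact hα.1
    · -- bal
      exact hαb lab' hl1 hl2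
    · -- Usub
      intro c hc
      rcases Finset.mem_insert.mp hc with h | h
      · rw [h]; exact ⟨hq, Nat.lt_succ_self q⟩
      · have := hInv.Usub c h
        exact ⟨this.1, this.2.trans (Nat.lt_succ_self q)⟩
    · -- Ucnt
      intro c hc
      rcases Finset.mem_insert.mp hc with h | h
      · rw [h]
        have hsub : (range P).image (fun j' => t * P + j') ⊆
            (range ((t + 1) * P)).filter (fun j => b' (n0 + j) / (32 * P * P) = q) := by
          intro j hj
          obtain ⟨j', hj', rfl⟩ := Finset.mem_image.mp hj
          rw [Finset.mem_range] at hj'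
          rw [Finset.mem_filter, Finset.mem_range]
          refine ⟨by omega, ?_⟩
          have := h2 j' hj'
          have hpos : 0 < 32 * P * P := by positivity
          exact Nat.div_eq_of_lt_le (by linarith [this.1]) (by linarith [this.2])
        have hcard : ((range P).image (fun j' => t * P + j')).card = P := by
          rw [Finset.card_image_of_injective _ (fun x y hxy => by simpa using hxy)]
          simp
        calc P = _ := hcard.symm
          _ ≤ _ := Finset.card_le_card hsub
      · refine (hInv.Ucnt c h).trans (Finset.card_le_card ?_)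
        intro j hj
        rw [Finset.mem_filter, Finset.mem_range] at hj ⊢
        refine ⟨by omega, ?_⟩
        rw [h1 (n0 + j) (by omega)]
        exact hj.2
    · -- Un
      intro c hc1 hc2 hc3
      rw [Finset.mem_insert, not_or] at hc3
      have hcq : c < q := by
        rcases Nat.lt_succ_iff_lt_or_eq.mp hc2 with h | h
        · exact h
        · exact absurd h hc3.1
      refine (hInv.Un c hc1 hcq hc3.2).trans_le ?_
      refine Nat.mul_le_mul_left 2 (Finset.card_le_card ?_)
      intro β hβ
      rw [Finset.mem_filter] at hβ ⊢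
      exact ⟨hβ.1, NotOK_mono h1 (by rw [htP]; omega) hβ.2⟩

end Pool.Agent.V7H76.AD
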