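import Pool.Agent.V7H76.AD.CNT2
import Pool.Agent.V7H76.AD.STEP2
import Pool.Agent.V7H76.AD.LAB
import Pool.Agent.V7H67.AD.BLK
import Pool.Agent.V7H84.AD.DENS2
import Pool.Agent.V7H86.AD.CON2
import Pool.Agent.V7H10.AD.DIG
import Pool.Agent.V7H43.AD.GEN
import Pool.Agent.V7H81.AD.FIN2
import Pool.Agent.V7H99.AD.REC

/-! Assembly of the second part. -/

namespace Pool.Agent.V7H76.AD

theorem fin2 : S_FIN2 :=
  Pool.Agent.V7H81.AD.t_FIN2 (Pool.Agent.V7H99.AD.t_REC Pool.Agent.V7H10.AD.t_DIG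
    (Pool.Agent.V7H43.AD.t_GEN t_U Pool.Agent.V7H67.AD.t_BLK
      (t_STEP2 t_LAB Pool.Agent.V7H86.AD.t_CON2) Pool.Agent.V7H84.AD.t_DENS2
      (t_CNT2 Pool.Agent.V7H67.AD.t_BLK)))

end Pool.Agent.V7H76.AD
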