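import Pool.Agent.V7H76.AD.Spec

/-!
# Second part: gap-free gluing, `a_n ≤ n (log n)^(1/2+ε)` for all large `n`

The generations follow each other without gap; the labels of generation `k` are numbers with `k`
digits (base `Bf = 2^s`) in a fixed set free of 3-term progressions, so that modulo the old modulus
the new terms still follow the old structure.
-/

open Finset
open scoped Classical

namespace Pool.Agent.V7H76.AD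

/-- The parameters of one generation (no condition on the sum of the old part). -/
structure ParC (P m n0 i0 q0 : ℕ) (A : Finset ℕ) (b0 : ℕ → ℕ) : Prop where
  hP : P = 2 ^ m
  hm : 1 ≤ m
  hA : ∀ α ∈ A, α < P
  hF : ThreeAPFree (A : Set ℕ)
  hN : 2048 * (2 * m + 1) ≤ A.card
  hn : 1 ≤ n0
  hb : 32 * P * P ≤ b0 (n0 - 1)
  hi : 16 * P * P * P ≤ 2 ^ i0
  hq : q0 * (32 * P * P) = 2 ^ i0

/-- A finished generation: `t` runs of `P` terms between the scales `i0` and `i1`. -/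
structure Gen (P n0 i0 i1 : ℕ) (A : Finset ℕ) (t : ℕ) (b lab : ℕ → ℕ) : Prop where
  rng : ∀ j < t * P, 2 ^ i0 ≤ b (n0 + j) ∧ b (n0 + j) < 2 ^ i1
  win : ∀ j, j + 1 < t * P → b (n0 + j) / (16 * P) < b (n0 + (j + 1)) / (16 * P)
  res : ∀ j ≤ t * P, (S b (n0 + j) : ℤ) - S b n0 + 3 ≡ st P lab j [ZMOD ((16 * P : ℕ) : ℤ)]
  labA : ∀ r < t, lab r ∈ A
  bal : ∀ g, ∀ α ∈ A, A.card * ((range t).filter (fun r => r / P = g ∧ lab r = α)).card ≤ 3 * P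

/-- valid states -/
def VS (A : Finset ℕ) (v : ℤ) : Prop := v = 3 ∨ ∃ β ∈ A, v = -8 * (β : ℤ) ∨ v = 8 * (β : ℤ) + 1

/-- The old partial sum `S b j` can be the start of a dangerous sum for `α` (level `P`, offset
`o`). -/
def Comp (P : ℕ) (A : Finset ℕ) (o : ℤ) (b : ℕ → ℕ) (α j : ℕ) : Prop :=
  ∃ v : ℤ, VS A v ∧ Cls (16 * P) α (v + o - S b j)

/-- The previous generation (index 1) and what is needed about the older ones. -/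
structure Hist (P m n0 i0 : ℕ) (A : Finset ℕ) (P1 m1 n1 i1 : ℕ) (A1 : Finset ℕ) (t1 Bf : ℕ)
    (b0 lab1 : ℕ → ℕ) : Prop where
  gen : Gen P1 n1 i1 i0 A1 t1 b0 lab1
  hn : n0 = n1 + t1 * P1
  hP : P = Bf * P1
  hBf : 1 ≤ Bf
  hP1 : P1 = 2 ^ m1
  hm1 : 1 ≤ m1
  hi1 : i1 ≤ i0
  hA1 : ∀ α ∈ A1, α < P1
  hF1 : ThreeAPFree (A1 : Set ℕ)
  hi3 : 16 * P1 * P1 * P1 ≤ 2 ^ i1
  proj : ∀ α ∈ A, α % (2 * P1) ∈ A1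
  fib : ∀ α' ∈ A1, A1.card * (A.filter (fun α => α % (2 * P1) = α')).card ≤ A.card
  hB1 : 65536 * Bf * (i0 - i1) ≤ A1.card ^ 2
  hB2 : 16384 * Bf * (m + 1) ≤ A1.card
  sum : S b0 n1 < 2 ^ i0
  cmp : ∀ α ∈ A, 256 * (16 * P) * ((range n1).filter
    (fun j => Comp P1 A1 ((S b0 n1 : ℤ) - 3) b0 (α % (2 * P1)) j)).card ≤ 2 ^ i1

/-- CON2 = CON with `ParC` -/
def S_CON2 : Prop := ∀ (P m n0 i0 q0 : ℕ) (A : Finset ℕ) (b0 : ℕ → ℕ)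
  (_ : ParC P m n0 i0 q0 A b0) (t q : ℕ) (b lab : ℕ → ℕ) (U : Finset ℕ)
  (_ : Inv P n0 q0 A b0 t q b lab U) (_ : q0 ≤ q) (α : ℕ) (_ : α ∈ A)
  (_ : ¬ NotOK P b (n0 + t * P) q α) (lab' : ℕ → ℕ) (_ : ∀ r < t, lab' r = lab r)
  (_ : lab' t = α),
  ∃ b' : ℕ → ℕ, (∀ j < n0 + t * P, b' j = b j) ∧
    (∀ j < P, q * (32 * P * P) ≤ b' (n0 + (t * P + j)) ∧
      b' (n0 + (t * P + j)) < (q + 1) * (32 * P * P)) ∧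
    (∀ j, j + 1 < P → b' (n0 + (t * P + j)) / (16 * P) <
      b' (n0 + (t * P + j + 1)) / (16 * P)) ∧
    (∀ j ≤ P, (S b' (n0 + (t * P + j)) : ℤ) - S b' n0 + 3 ≡ st P lab' (t * P + j)
      [ZMOD ((16 * P : ℕ) : ℤ)]) ∧
    (∀ j < P, ¬ Dg b' (n0 + (t * P + j)) (b' (n0 + (t * P + j))))

/-- STEP2 = STEP with `ParC` -/
def S_STEP2 : Prop := ∀ (P m n0 i0 q0 : ℕ) (A : Finset ℕ) (b0 : ℕ → ℕ)
  (_ : ParC P m n0 i0 q0 A b0) (t q : ℕ) (b lab : ℕ → ℕ) (U : Finset ℕ)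
  (_ : Inv P n0 q0 A b0 t q b lab U) (_ : q0 ≤ q),
  ∃ (t' : ℕ) (b' lab' : ℕ → ℕ) (U' : Finset ℕ), Inv P n0 q0 A b0 t' (q + 1) b' lab' U'

/-- DENS2 = DENS with `ParC` and the count as a hypothesis -/
def S_DENS2 : Prop := ∀ (P m n0 i0 q0 L : ℕ) (A : Finset ℕ) (b0 : ℕ → ℕ)
  (_ : ParC P m n0 i0 q0 A b0) (t : ℕ) (b lab : ℕ → ℕ) (U : Finset ℕ)
  (_ : Inv P n0 q0 A b0 t (q0 * 2 ^ L) b lab U)
  (_ : ∀ i, i0 ≤ i → i < i0 + L → ∀ α ∈ A,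
    32 * (16 * P) * ((Ico (2 ^ i) (2 ^ (i + 1))).filter
      (fun z : ℕ => Cls (16 * P) α z ∧ Dg b (n0 + t * P) z)).card ≤ 2 ^ i)
  (i : ℕ) (_ : i0 ≤ i) (_ : i < i0 + L),
  2 ^ i ≤ 64 * P * ((range (t * P)).filter
    (fun j => 2 ^ i ≤ b (n0 + j) ∧ b (n0 + j) < 2 ^ (i + 1))).card

/-- CNT2: the count of dangerous numbers with the history. -/
def S_CNT2 : Prop := ∀ (P m n0 i0 q0 L : ℕ) (A : Finset ℕ) (b0 : ℕ → ℕ)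
  (_ : ParC P m n0 i0 q0 A b0) (P1 m1 n1 i1 : ℕ) (A1 : Finset ℕ) (t1 Bf : ℕ) (lab1 : ℕ → ℕ)
  (_ : Hist P m n0 i0 A P1 m1 n1 i1 A1 t1 Bf b0 lab1) (_ : 16384 * L ≤ A.card ^ 2)
  (t q : ℕ) (b lab : ℕ → ℕ) (U : Finset ℕ) (_ : Inv P n0 q0 A b0 t q b lab U)
  (i : ℕ) (_ : i0 ≤ i) (_ : i < i0 + L) (α : ℕ) (_ : α ∈ A),
  32 * (16 * P) * ((Ico (2 ^ i) (2 ^ (i + 1))).filter
    (fun z : ℕ => Cls (16 * P) α z ∧ Dg b (n0 + t * P) z)).card ≤ 2 ^ i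

/-- The numerical conditions on the next level `P2, A2`. -/
structure Next (P m i0 L : ℕ) (A : Finset ℕ) (P2 m2 : ℕ) (A2 : Finset ℕ) (Bf : ℕ) : Prop where
  hP : P2 = 2 ^ m2
  hPB : P2 = Bf * P
  hBf : 1 ≤ Bf
  hm : m ≤ m2
  hA : ∀ α ∈ A2, α < P2
  hF : ThreeAPFree (A2 : Set ℕ)
  hN : 2048 * (2 * m2 + 1) ≤ A2.card
  hi : 16 * P2 * P2 * P2 ≤ 2 ^ (i0 + L)
  hb : 64 * P2 * P2 ≤ 2 ^ (i0 + L)
  proj : ∀ α ∈ A2, α % (2 * P) ∈ A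
  fib : ∀ α' ∈ A, A.card * (A2.filter (fun α => α % (2 * P) = α')).card ≤ A2.card
  hL1 : 1 ≤ L
  hL : 16384 * L ≤ A.card ^ 2
  hB1 : 65536 * Bf * L ≤ A.card ^ 2
  hB2 : 16384 * Bf * (m2 + 1) ≤ A.card
  hLi : i0 ≤ L

/-- GEN: one generation. The hypothesis on `N1 = A1.card` and `i0 - i1` controls the older part
for the next generation. -/
def S_GEN : Prop := ∀ (P m n0 i0 q0 L : ℕ) (A : Finset ℕ) (b0 : ℕ → ℕ)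
  (_ : ParC P m n0 i0 q0 A b0) (P1 m1 n1 i1 : ℕ) (A1 : Finset ℕ) (t1 Bf : ℕ) (lab1 : ℕ → ℕ)
  (_ : Hist P m n0 i0 A P1 m1 n1 i1 A1 t1 Bf b0 lab1)
  (P2 m2 : ℕ) (A2 : Finset ℕ) (_ : Next P m i0 L A P2 m2 A2 Bf)
  (_ : ∀ j, j + 1 < n0 → b0 j < b0 (j + 1)) (_ : ∀ j < n0, b0 j < 2 ^ i0)
  (_ : t1 = 0 ∨ 8192 * Bf ^ 2 ≤ A1.card)
  (_ : 512 * (16 * P2) * n1 ≤ 2 ^ i0),
  ∃ (t : ℕ) (b lab : ℕ → ℕ) (q2 : ℕ), (∀ j < n0, b j = b0 j) ∧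
    (∀ j, j + 1 < n0 + t * P → b j < b (j + 1)) ∧
    (∀ j < n0 + t * P, b j < 2 ^ (i0 + L)) ∧
    (∀ j, n0 ≤ j → j < n0 + t * P → ¬ Dg b j (b j)) ∧
    (∀ i, i0 ≤ i → i < i0 + L → 2 ^ i ≤ 64 * P * ((range (t * P)).filter
      (fun j => 2 ^ i ≤ b (n0 + j) ∧ b (n0 + j) < 2 ^ (i + 1))).card) ∧
    ParC P2 m2 (n0 + t * P) (i0 + L) q2 A2 b ∧
    Hist P2 m2 (n0 + t * P) (i0 + L) A2 P m n0 i0 A t Bf b lab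

/-- the digit sets: numbers with `k` digits in `D`, base `Bf` -/
def dset (Bf : ℕ) (D : Finset ℕ) : ℕ → Finset ℕ
  | 0 => {0}
  | k + 1 => (dset Bf D k ×ˢ D).image (fun p => p.1 + p.2 * Bf ^ k)

/-- DIG: the digit sets (base `Bf = 2^s`, digits in `D ⊆ [0, Bf/2)`, 3-AP-free). -/
def S_DIG : Prop := ∀ (s : ℕ) (D : Finset ℕ), 2 ≤ s → (∀ d ∈ D, d < 2 ^ (s - 1)) →
  ThreeAPFree (D : Set ℕ) → ∀ k, 1 ≤ k →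
  (dset (2 ^ s) D k).card = D.card ^ k ∧ (∀ α ∈ dset (2 ^ s) D k, α < 2 ^ (s * k - 1)) ∧
  ThreeAPFree ((dset (2 ^ s) D k : Finset ℕ) : Set ℕ) ∧
  (∀ α ∈ dset (2 ^ s) D (k + 1), α % (2 * 2 ^ (s * k - 1)) ∈ dset (2 ^ s) D k) ∧
  (∀ α' ∈ dset (2 ^ s) D k, (dset (2 ^ s) D k).card *
    ((dset (2 ^ s) D (k + 1)).filter (fun α => α % (2 * 2 ^ (s * k - 1)) = α')).card ≤
      (dset (2 ^ s) D (k + 1)).card)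

/-- The final statement of the second part. -/
def S_FIN2 : Prop := ∀ ε : ℝ, 0 < ε → ∃ a : ℕ → ℕ, StrictMono a ∧ 1 ≤ a 0 ∧
  (∀ i k l : ℕ, k ≤ l → l < i → a i ≠ ∑ j ∈ Icc k l, a j) ∧
  ∃ n₀ : ℕ, ∀ n : ℕ, n₀ ≤ n → (a n : ℝ) ≤ n * (Real.log n) ^ (1 / 2 + ε)

/-- the start scales of the generations -/
def iscale (s k0 N0 i0 : ℕ) : ℕ → ℕ
  | 0 => i0
  | k + 1 => iscale s k0 N0 i0 k + N0 ^ (2 * (k + k0)) / (65536 * 2 ^ s)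

/-- REC: the whole sequence for given digits, with the density in every scale; generation `k` has
`k + k0` digits. -/
def S_REC : Prop := ∀ (s N0 : ℕ) (D : Finset ℕ), 2 ≤ s → (∀ d ∈ D, d < 2 ^ (s - 1)) →
  ThreeAPFree (D : Set ℕ) → D.card = N0 → 2 ^ s ≤ N0 ^ 2 → 4 ≤ N0 →
  ∃ (k0 i0 : ℕ) (a : ℕ → ℕ), 1 ≤ k0 ∧ StrictMono a ∧ 1 ≤ a 0 ∧
    (∀ i k l : ℕ, k ≤ l → l < i → a i ≠ ∑ j ∈ Icc k l, a j) ∧
    ∀ k i : ℕ, iscale s k0 N0 i0 k ≤ i → i < iscale s k0 N0 i0 (k + 1) →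
      ∃ n n' : ℕ, n < n' ∧ (∀ j, j < n → a j < 2 ^ i) ∧ (∀ j, n' ≤ j → 2 ^ (i + 1) ≤ a j) ∧
        (∀ j, n ≤ j → 2 ^ i ≤ a j) ∧ (∀ j, j < n' → a j < 2 ^ (i + 1)) ∧
        2 ^ i ≤ 64 * 2 ^ (s * (k + k0) - 1) * (n' - n)

end Pool.Agent.V7H76.AD
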