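import Pool.Agent.V7H76.AD.Spec

set_option linter.all false

open Finset
open scoped Classical

namespace Pool.Agent.V7H76.AD

theorem S_succ (b : ℕ → ℕ) (l : ℕ) : S b (l + 1) = S b l + b l := by
  unfold S; exact sum_range_succ _ _

theorem S_mono (b : ℕ → ℕ) {l l' : ℕ} (h : l ≤ l') : S b l ≤ S b l' := by
  unfold S; exact sum_le_sum_of_subset (range_mono h)

theorem S_add (b : ℕ → ℕ) (c j d : ℕ) (h : ∀ i, j ≤ i → i < j + d → c ≤ b i) :
    S b j + d * c ≤ S b (j + d) := by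
  induction d with
  | zero => simp
  | succ d ih =>
    have h1 := ih (fun i hi hi' => h i hi (by omega))
    have h2 := h (j + d) (by omega) (by omega)
    rw [← Nat.add_assoc, S_succ, Nat.add_mul, Nat.one_mul]
    omega

theorem span (T : Finset ℕ) (f : ℕ → ℕ) (c X V D : ℕ) (hc : 0 < c)
    (h : ∀ l ∈ T, V + X ≤ f l ∧ f l < V + 2 * X)
    (hm : ∀ l₁ ∈ T, ∀ l₂ ∈ T, l₁ ≤ l₂ → f l₁ + (l₂ - l₁) * c ≤ f l₂) (hX : X = c * D) :
    ∃ x y, T ⊆ Ico x y ∧ y - x ≤ D := by
  by_cases hT : T.Nonempty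
  · refine ⟨T.min' hT, T.max' hT + 1, ?_, ?_⟩
    · intro l hl
      rw [mem_Ico]
      exact ⟨T.min'_le l hl, Nat.lt_succ_of_le (T.le_max' l hl)⟩
    · have h1 := h _ (T.min'_mem hT)
      have h2 := h _ (T.max'_mem hT)
      have h3 := hm _ (T.min'_mem hT) _ (T.max'_mem hT) (T.min'_le _ (T.max'_mem hT))
      have h4 : (T.max' hT - T.min' hT) * c < c * D := by
        rw [← hX]; omega
      have h5 : T.max' hT - T.min' hT < D := by
        rw [mul_comm] at h4
        exact lt_of_mul_lt_mul_left h4 (Nat.zero_le _)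
      omega
  · rw [not_nonempty_iff_eq_empty] at hT
    exact ⟨0, 0, by simp [hT], by simp⟩

section inv
variable {P m n0 i0 q0 L : ℕ} {A : Finset ℕ} {b0 : ℕ → ℕ} (hp : Par P m n0 i0 q0 L A b0)
  {t q : ℕ} {b lab : ℕ → ℕ} {U : Finset ℕ} (hI : Inv P n0 q0 A b0 t q b lab U)
include hp hI

theorem Ppos (_ : Inv P n0 q0 A b0 t q b lab U) : 0 < P := by rw [hp.hP]; positivity

theorem lo (j : ℕ) (hj : j < t * P) : 2 ^ i0 ≤ b (n0 + j) := by
  rw [← hp.hq]; exact (hI.rng j hj).1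

theorem winlt (j d : ℕ) (hj : j + (d + 1) < t * P) :
    b (n0 + j) / (16 * P) < b (n0 + (j + (d + 1))) / (16 * P) := by
  induction d with
  | zero => exact hI.win j hj
  | succ d ih =>
    have h1 := ih (by omega)
    have h2 := hI.win (j + (d + 1)) (by omega)
    exact h1.trans (by rw [show j + (d + 1 + 1) = j + (d + 1) + 1 by ring]; exact h2)

theorem bmono (j j' : ℕ) (h : j ≤ j') (hj : j' < t * P) : b (n0 + j) ≤ b (n0 + j') := by
  rcases Nat.eq_or_lt_of_le h with h | h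
  · rw [h]
  · obtain ⟨d, rfl⟩ : ∃ d, j' = j + (d + 1) := ⟨j' - j - 1, by omega⟩
    have h1 := winlt hp hI j d hj
    by_contra hc
    push Not at hc
    exact absurd (Nat.div_le_div_right (c := 16 * P) hc.le) (not_le.2 h1)

theorem winge (j : ℕ) (hj : j < t * P) : j ≤ b (n0 + j) / (16 * P) := by
  induction j with
  | zero => exact Nat.zero_le _
  | succ j ih =>
    have h1 := ih (by omega)
    have h2 := hI.win j hj
    omega

theorem Sinc (l₁ l₂ c : ℕ) (h : l₁ ≤ l₂) (h2 : l₂ ≤ t * P) (hc : ∀ j, l₁ ≤ j → j < l₂ →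
    c ≤ b (n0 + j)) : S b (n0 + l₁) + (l₂ - l₁) * c ≤ S b (n0 + l₂) := by
  have h3 := S_add b c (n0 + l₁) (l₂ - l₁) (fun i hi hi' => by
    have h4 := hc (i - n0) (by omega) (by omega)
    rwa [show n0 + (i - n0) = i by omega] at h4)
  rwa [show n0 + l₁ + (l₂ - l₁) = n0 + l₂ by omega] at h3

/-- the ends `l` for a new start `j` -/
noncomputable def TT (P : ℕ) (b lab : ℕ → ℕ) (n0 t α X j : ℕ) : Finset ℕ :=
  (range (t * P + 1)).filter (fun l => Jp P lab α l ∧ S b (n0 + j) + X ≤ S b (n0 + l) ∧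
    S b (n0 + l) < S b (n0 + j) + 2 * X)

/-- the ends `l` for an old start `j` -/
noncomputable def TO (P : ℕ) (b : ℕ → ℕ) (n0 t X j : ℕ) : Finset ℕ :=
  (range (t * P + 1)).filter (fun l => S b j + X ≤ S b (n0 + l) ∧
    S b (n0 + l) < S b j + 2 * X)

/-- the new starts in a scale -/
noncomputable def BB (P : ℕ) (b lab : ℕ → ℕ) (n0 t α i' : ℕ) : Finset ℕ :=
  (range (t * P)).filter (fun j => Jp P lab α j ∧ 2 ^ i' ≤ b (n0 + j) ∧ b (n0 + j) < 2 ^ (i' + 1))

theorem TO_card (i j : ℕ) (hi : i0 ≤ i) : (TO P b n0 t (2 ^ i) j).card ≤ 2 ^ (i - i0) := by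
  obtain ⟨x, y, h1, h2⟩ := span (TO P b n0 t (2 ^ i) j) (fun l => S b (n0 + l)) (2 ^ i0) (2 ^ i)
    (S b j) (2 ^ (i - i0)) (by positivity) (fun l hl => by
      rw [TO, mem_filter] at hl; exact hl.2) (fun l₁ h₁ l₂ h₂ h => by
      rw [TO, mem_filter, mem_range] at h₂
      exact Sinc hp hI l₁ l₂ (2 ^ i0) h (by omega) (fun j _ hj' => lo hp hI j (by omega)))
    (by rw [← pow_add]; congr 1; omega)
  calc (TO P b n0 t (2 ^ i) j).card ≤ (Ico x y).card := card_le_card h1
    _ ≤ _ := by rw [Nat.card_Ico]; exact h2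

theorem TT_span (i i' α j : ℕ) (hi : i' ≤ i) (hj : j < t * P) (hb : 2 ^ i' ≤ b (n0 + j)) :
    ∃ x y, TT P b lab n0 t α (2 ^ i) j ⊆ Ico x y ∧ y - x ≤ 2 ^ (i - i') := by
  refine span (TT P b lab n0 t α (2 ^ i) j) (fun l => S b (n0 + l)) (2 ^ i') (2 ^ i)
    (S b (n0 + j)) (2 ^ (i - i')) (by positivity) (fun l hl => by
      rw [TT, mem_filter] at hl; exact hl.2.2) (fun l₁ h₁ l₂ h₂ h => ?_)
    (by rw [← pow_add]; congr 1; omega)
  rw [TT, mem_filter, mem_range] at h₁ h₂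
  have h3 : j ≤ l₁ := by
    by_contra hc
    push Not at hc
    have h4 := S_mono b (show n0 + l₁ ≤ n0 + j by omega)
    have h5 : 0 < 2 ^ i := by positivity
    have h6 := h₁.2.2.1
    omega
  exact Sinc hp hI l₁ l₂ (2 ^ i') h (by omega) (fun j' h1' h2' =>
    hb.trans (bmono hp hI j j' (by omega) (by omega)))

theorem TT_card (i i' α j : ℕ) (hi : i' ≤ i) (hj : j < t * P) (hb : 2 ^ i' ≤ b (n0 + j)) :
    (TT P b lab n0 t α (2 ^ i) j).card ≤ 2 ^ (i - i') := by
  obtain ⟨x, y, h1, h2⟩ := TT_span hp hI i i' α j hi hj hb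
  calc _ ≤ (Ico x y).card := card_le_card h1
    _ ≤ _ := by rw [Nat.card_Ico]; exact h2

omit hI in
theorem card_le : A.card ≤ P := by
  have h : A ⊆ range P := fun α hα => mem_range.2 (hp.hA α hα)
  simpa using card_le_card h

theorem TT_card2 (hB : S_BLK) (i i' α j : ℕ) (hα : α ∈ A) (hi : i' ≤ i) (hj : j < t * P)
    (hb : 2 ^ i' ≤ b (n0 + j)) (hfar : 2 * m + 1 ≤ i - i') :
    A.card * (TT P b lab n0 t α (2 ^ i) j).card ≤ 8 * 2 ^ (i - i') := by
  obtain ⟨x, y, h1, h2⟩ := TT_span hp hI i i' α j hi hj hb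
  have hP : 0 < P := by rw [hp.hP]; positivity
  have h3 := hB P t A lab α hP (card_le hp) (fun g => hI.bal g α hα) x y
  have h4 : TT P b lab n0 t α (2 ^ i) j ⊆
      (Ico x y).filter (fun j => j ≤ t * P ∧ Jp P lab α j) := by
    intro l hl
    rw [mem_filter]
    refine ⟨h1 hl, ?_⟩
    rw [TT, mem_filter, mem_range] at hl
    exact ⟨by omega, hl.2.1⟩
  have h5 := Nat.mul_le_mul_left A.card (card_le_card h4)
  have h6 : 2 * P * P ≤ 2 ^ (i - i') := by
    rw [hp.hP]
    calc 2 * 2 ^ m * 2 ^ m = 2 ^ (2 * m + 1) := by ring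
      _ ≤ _ := Nat.pow_le_pow_right (by norm_num) hfar
  have h7 : 8 * P * P = 4 * (2 * P * P) := by ring
  calc _ ≤ _ := h5
    _ ≤ _ := h3
    _ ≤ 4 * 2 ^ (i - i') + 4 * 2 ^ (i - i') := by rw [h7]; omega
    _ = _ := by ring

theorem BB_card (hB : S_BLK) (i' α : ℕ) (hα : α ∈ A) (hi : i0 ≤ i') :
    A.card * (16 * P) * (BB P b lab n0 t α i').card ≤ 16 * 2 ^ i' := by
  have hP : 0 < P := by rw [hp.hP]; positivity
  -- 16 P divides 2^(i'+1)
  have hd : ∃ y, y * (16 * P) = 2 ^ (i' + 1) := by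
    have h1 : 2 ^ (m + 4) ≤ 2 ^ i0 := by
      have h2 := hp.hi
      rw [hp.hP] at h2
      refine le_trans ?_ h2
      rw [show 16 * 2 ^ m * 2 ^ m * 2 ^ m = 2 ^ (3 * m + 4) by ring]
      exact Nat.pow_le_pow_right (by norm_num) (by omega)
    have h2 : m + 4 ≤ i0 := (Nat.pow_le_pow_iff_right (by norm_num)).1 h1
    refine ⟨2 ^ (i' + 1 - (m + 4)), ?_⟩
    rw [hp.hP, show 16 * 2 ^ m = 2 ^ (m + 4) by ring, ← pow_add]
    congr 1; omega
  obtain ⟨y, hy⟩ := hd
  have h3 := hB P t A lab α hP (card_le hp) (fun g => hI.bal g α hα) 0 y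
  have h4 : BB P b lab n0 t α i' ⊆ (Ico 0 y).filter (fun j => j ≤ t * P ∧ Jp P lab α j) := by
    intro j hj
    rw [BB, mem_filter, mem_range] at hj
    rw [mem_filter, mem_Ico]
    refine ⟨⟨Nat.zero_le _, ?_⟩, hj.1.le, hj.2.1⟩
    have h5 := winge hp hI j hj.1
    have h6 : b (n0 + j) / (16 * P) < y := by
      rw [Nat.div_lt_iff_lt_mul (by positivity), hy]; exact hj.2.2.2
    omega
  have h5 := Nat.mul_le_mul_left A.card (card_le_card h4)
  have h6 : A.card * (BB P b lab n0 t α i').card ≤ 4 * y + 8 * P * P := by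
    simpa using h5.trans h3
  have h7 : 2 ^ i0 ≤ 2 ^ i' := Nat.pow_le_pow_right (by norm_num) hi
  have h8 := hp.hi
  calc A.card * (16 * P) * (BB P b lab n0 t α i').card
      = (A.card * (BB P b lab n0 t α i').card) * (16 * P) := by ring
    _ ≤ (4 * y + 8 * P * P) * (16 * P) := Nat.mul_le_mul_right _ h6
    _ = 4 * (y * (16 * P)) + 8 * (16 * P * P * P) := by ring
    _ ≤ 4 * 2 ^ (i' + 1) + 8 * 2 ^ i' := by rw [hy]; omega
    _ = _ := by ring

theorem Z_sub (hU : S_U) (i α : ℕ) (hα : α ∈ A) (hi : i0 ≤ i) :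
    (Ico (2 ^ i) (2 ^ (i + 1))).filter (fun z : ℕ => Cls (16 * P) α z ∧ Dg b (n0 + t * P) z) ⊆
      (Icc i0 i).biUnion (fun i' => (BB P b lab n0 t α i').biUnion (fun j =>
        (TT P b lab n0 t α (2 ^ i) j).image (fun l => S b (n0 + l) - S b (n0 + j)))) ∪
      (range n0).biUnion (fun j => (TO P b n0 t (2 ^ i) j).image
        (fun l => S b (n0 + l) - S b j)) := by
  have hP : 0 < P := by rw [hp.hP]; positivity
  intro z hz
  rw [mem_filter, mem_Ico] at hz
  obtain ⟨⟨hz1, hz2⟩, hcls, j, l, hjl, hln, hS⟩ := hz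
  have hpow : 2 ^ (i + 1) = 2 * 2 ^ i := by ring
  have hi2 : 2 ^ i0 ≤ 2 ^ i := Nat.pow_le_pow_right (by norm_num) hi
  have hn0 : S b n0 < 2 ^ i0 := by
    have h1 : S b n0 = S b0 n0 := sum_congr rfl (fun j hj => hI.old j (mem_range.1 hj))
    rw [h1]; exact hp.hS
  have hl0 : n0 < l := by
    by_contra hc
    push Not at hc
    have h1 := S_mono b hc
    omega
  obtain ⟨l', rfl⟩ : ∃ l', l = n0 + l' := ⟨l - n0, by omega⟩
  by_cases hj : j < n0
  · apply mem_union_right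
    rw [mem_biUnion]
    refine ⟨j, mem_range.2 hj, ?_⟩
    rw [mem_image]
    refine ⟨l', ?_, by omega⟩
    rw [TO, mem_filter, mem_range]
    refine ⟨by omega, by omega, by omega⟩
  · apply mem_union_left
    obtain ⟨j', rfl⟩ : ∃ j', j = n0 + j' := ⟨j - n0, by omega⟩
    have hj' : j' < t * P := by omega
    have hl' : l' ≤ t * P := by omega
    have h1 : b (n0 + j') ≤ z := by
      have h2 := S_mono b (show n0 + j' + 1 ≤ n0 + l' by omega)
      rw [S_succ] at h2
      omega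
    have h3 := lo hp hI j' hj'
    have hne : b (n0 + j') ≠ 0 := by
      have : 0 < 2 ^ i0 := by positivity
      omega
    have hres : (z : ℤ) ≡ st P lab l' - st P lab j' [ZMOD ((16 * P : ℕ) : ℤ)] := by
      have h4 := (hI.res l' hl').sub (hI.res j' hj'.le)
      have h5 : ((S b (n0 + l') : ℤ) - S b n0 + 3) - ((S b (n0 + j') : ℤ) - S b n0 + 3) = z := by
        have : (S b (n0 + l') : ℤ) = S b (n0 + j') + z := by exact_mod_cast hS
        rw [this]; ring
      rwa [h5] at h4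
    have hC : Cls (16 * P) α (st P lab l' - st P lab j') := by
      rcases hcls with h | h | h | h
      · exact Or.inl (hres.symm.trans h)
      · exact Or.inr (Or.inl (hres.symm.trans h))
      · exact Or.inr (Or.inr (Or.inl (hres.symm.trans h)))
      · exact Or.inr (Or.inr (Or.inr (hres.symm.trans h)))
    have hlt : ∀ x, x ≤ t * P → x % P ≠ 0 → x / P < t := by
      intro x hx hx0
      rw [Nat.div_lt_iff_lt_mul hP]
      rcases Nat.lt_or_eq_of_le hx with h | h
      · exact h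
      · exfalso; apply hx0; rw [h]; exact Nat.mul_mod_left t P
    have hJ := hU P P A lab α j' l' hp.hA hp.hF hα (fun h => hI.labA _ (hlt _ hj'.le h))
      (fun h => hI.labA _ (hlt _ hl' h)) hC
    rw [mem_biUnion]
    refine ⟨Nat.log 2 (b (n0 + j')), ?_, ?_⟩
    · rw [mem_Icc]
      constructor
      · exact Nat.le_log_of_pow_le (by norm_num) h3
      · have h6 : Nat.log 2 (b (n0 + j')) < i + 1 :=
          Nat.log_lt_of_lt_pow hne (by omega)
        omega
    · rw [mem_biUnion]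
      refine ⟨j', ?_, ?_⟩
      · rw [BB, mem_filter, mem_range]
        exact ⟨hj', hJ.1, Nat.pow_log_le_self 2 hne, Nat.lt_pow_succ_log_self (by norm_num) _⟩
      · rw [mem_image]
        refine ⟨l', ?_, by omega⟩
        rw [TT, mem_filter, mem_range]
        exact ⟨by omega, hJ.2, by omega, by omega⟩

end inv

theorem t_CNT (hU : S_U) (hB : S_BLK) : S_CNT := by
  intro P m n0 i0 q0 L A b0 hp t q b lab U hI i hi hiL α hα
  have hP : 0 < P := by rw [hp.hP]; positivity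
  set N := A.card with hN
  have hNpos : 0 < N := by have := hp.hN; omega
  -- the sums over the scales
  set E : ℕ → ℕ := fun i' => ∑ j ∈ BB P b lab n0 t α i', (TT P b lab n0 t α (2 ^ i) j).card with hE
  set C : ℕ := ∑ j ∈ range n0, (TO P b n0 t (2 ^ i) j).card with hC
  have hZ : ((Ico (2 ^ i) (2 ^ (i + 1))).filter
      (fun z : ℕ => Cls (16 * P) α z ∧ Dg b (n0 + t * P) z)).card ≤
      ∑ i' ∈ Icc i0 i, E i' + C := by
    refine (card_le_card (Z_sub hp hI hU i α hα hi)).trans ?_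
    refine (card_union_le _ _).trans ?_
    refine Nat.add_le_add ?_ ?_
    · refine card_biUnion_le.trans (sum_le_sum fun i' _ => ?_)
      refine card_biUnion_le.trans (sum_le_sum fun j _ => card_image_le)
    · exact card_biUnion_le.trans (sum_le_sum fun j _ => card_image_le)
  have hCb : 128 * (16 * P) * C ≤ 2 ^ i := by
    have h1 : C ≤ n0 * 2 ^ (i - i0) := by
      calc C ≤ ∑ j ∈ range n0, 2 ^ (i - i0) := sum_le_sum fun j _ => TO_card hp hI i j hi
        _ = _ := by simp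
    calc 128 * (16 * P) * C ≤ 128 * (16 * P) * (n0 * 2 ^ (i - i0)) := Nat.mul_le_mul_left _ h1
      _ ≤ (256 * n0 * (16 * P)) * 2 ^ (i - i0) := by
        rw [show 256 * n0 * (16 * P) * 2 ^ (i - i0) =
          2 * (128 * (16 * P) * (n0 * 2 ^ (i - i0))) by ring]
        omega
      _ ≤ 2 ^ i0 * 2 ^ (i - i0) := Nat.mul_le_mul_right _ hp.hn2
      _ = 2 ^ i := by rw [← pow_add]; congr 1; omega
  have hEb : ∀ i' ∈ Icc i0 i, N ^ 2 * (16 * P) * E i' ≤
      128 * 2 ^ i + (if i - i' ≤ 2 * m then 16 * N * 2 ^ i else 0) := by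
    intro i' hi'
    rw [mem_Icc] at hi'
    have hBB := BB_card hp hI hB i' α hα hi'.1
    have hpw : 2 ^ i' * 2 ^ (i - i') = 2 ^ i := by rw [← pow_add]; congr 1; omega
    have hmem : ∀ j ∈ BB P b lab n0 t α i', j < t * P ∧ 2 ^ i' ≤ b (n0 + j) := by
      intro j hj
      rw [BB, mem_filter, mem_range] at hj
      exact ⟨hj.1, hj.2.2.1⟩
    by_cases h : i - i' ≤ 2 * m
    · rw [if_pos h]
      have h1 : E i' ≤ (BB P b lab n0 t α i').card * 2 ^ (i - i') := by
        calc E i' ≤ ∑ j ∈ BB P b lab n0 t α i', 2 ^ (i - i') :=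
              sum_le_sum fun j hj => TT_card hp hI i i' α j hi'.2 (hmem j hj).1 (hmem j hj).2
          _ = _ := by simp
      calc N ^ 2 * (16 * P) * E i'
          ≤ N ^ 2 * (16 * P) * ((BB P b lab n0 t α i').card * 2 ^ (i - i')) :=
            Nat.mul_le_mul_left _ h1
        _ = N * (N * (16 * P) * (BB P b lab n0 t α i').card) * 2 ^ (i - i') := by ring
        _ ≤ N * (16 * 2 ^ i') * 2 ^ (i - i') :=
            Nat.mul_le_mul_right _ (Nat.mul_le_mul_left _ hBB)
        _ = 16 * N * (2 ^ i' * 2 ^ (i - i')) := by ring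
        _ = 16 * N * 2 ^ i := by rw [hpw]
        _ ≤ _ := Nat.le_add_left _ _
    · rw [if_neg h]
      have h1 : N * E i' ≤ (BB P b lab n0 t α i').card * (8 * 2 ^ (i - i')) := by
        calc N * E i' = ∑ j ∈ BB P b lab n0 t α i', N * (TT P b lab n0 t α (2 ^ i) j).card :=
              mul_sum _ _ _
          _ ≤ ∑ j ∈ BB P b lab n0 t α i', 8 * 2 ^ (i - i') :=
              sum_le_sum fun j hj => TT_card2 hp hI hB i i' α j hα hi'.2 (hmem j hj).1
                (hmem j hj).2 (by omega)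
          _ = _ := by simp
      calc N ^ 2 * (16 * P) * E i' = N * (16 * P) * (N * E i') := by ring
        _ ≤ N * (16 * P) * ((BB P b lab n0 t α i').card * (8 * 2 ^ (i - i'))) :=
            Nat.mul_le_mul_left _ h1
        _ = (N * (16 * P) * (BB P b lab n0 t α i').card) * (8 * 2 ^ (i - i')) := by ring
        _ ≤ (16 * 2 ^ i') * (8 * 2 ^ (i - i')) := Nat.mul_le_mul_right _ hBB
        _ = 128 * (2 ^ i' * 2 ^ (i - i')) := by ring
        _ = 128 * 2 ^ i := by rw [hpw]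
        _ ≤ _ := Nat.le_add_right _ _
  have hsum : N ^ 2 * (16 * P) * ∑ i' ∈ Icc i0 i, E i' ≤
      L * (128 * 2 ^ i) + (2 * m + 1) * (16 * N * 2 ^ i) := by
    rw [mul_sum]
    refine (sum_le_sum hEb).trans ?_
    rw [sum_add_distrib]
    refine Nat.add_le_add ?_ ?_
    · rw [sum_const, smul_eq_mul, Nat.card_Icc]
      exact Nat.mul_le_mul_right _ (by omega)
    · rw [← sum_filter, sum_const, smul_eq_mul]
      refine Nat.mul_le_mul_right _ ?_
      have h1 : (Icc i0 i).filter (fun i' => i - i' ≤ 2 * m) ⊆ Icc (i - 2 * m) i := by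
        intro x hx
        rw [mem_filter, mem_Icc] at hx
        rw [mem_Icc]
        omega
      refine (card_le_card h1).trans ?_
      rw [Nat.card_Icc]; omega
  have hfin : 128 * (16 * P) * ∑ i' ∈ Icc i0 i, E i' ≤ 2 * 2 ^ i := by
    have h1 : 0 < N ^ 2 := by positivity
    refine Nat.le_of_mul_le_mul_left ?_ h1
    have h2 : 2048 * (2 * m + 1) ≤ N := hp.hN
    have h3 : 16384 * L ≤ N ^ 2 := hp.hL
    calc N ^ 2 * (128 * (16 * P) * ∑ i' ∈ Icc i0 i, E i')
        = 128 * (N ^ 2 * (16 * P) * ∑ i' ∈ Icc i0 i, E i') := by ring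
      _ ≤ 128 * (L * (128 * 2 ^ i) + (2 * m + 1) * (16 * N * 2 ^ i)) :=
          Nat.mul_le_mul_left _ hsum
      _ = (16384 * L) * 2 ^ i + (2048 * (2 * m + 1)) * N * 2 ^ i := by ring
      _ ≤ N ^ 2 * 2 ^ i + N * N * 2 ^ i :=
          Nat.add_le_add (Nat.mul_le_mul_right _ h3)
            (Nat.mul_le_mul_right _ (Nat.mul_le_mul_right _ h2))
      _ = N ^ 2 * (2 * 2 ^ i) := by ring
  have h4 := Nat.mul_le_mul_left (128 * (16 * P)) hZ
  rw [Nat.mul_add] at h4
  have h5 : 128 * (16 * P) * ((Ico (2 ^ i) (2 ^ (i + 1))).filter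
      (fun z : ℕ => Cls (16 * P) α z ∧ Dg b (n0 + t * P) z)).card ≤ 3 * 2 ^ i := by omega
  have h6 : 128 * (16 * P) * ((Ico (2 ^ i) (2 ^ (i + 1))).filter
      (fun z : ℕ => Cls (16 * P) α z ∧ Dg b (n0 + t * P) z)).card =
      4 * (32 * (16 * P) * ((Ico (2 ^ i) (2 ^ (i + 1))).filter
      (fun z : ℕ => Cls (16 * P) α z ∧ Dg b (n0 + t * P) z)).card) := by ring
  rw [h6] at h5
  omega

end Pool.Agent.V7H76.AD
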