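import Pool.Agent.V7H76.AD.Spec

set_option linter.all false

open Finset
open scoped Classical

namespace Pool.Agent.V7H76.AD

theorem small_mult (P : ℕ) (k : ℤ) (x : ℤ) (h : x = 2 * (P : ℤ) * k) (h1 : x < 2 * P)
    (h2 : -(2 * (P : ℤ)) < x) : x = 0 := by
  have hP : (0 : ℤ) ≤ P := Int.natCast_nonneg P
  have hk1 : k < 1 := by
    by_contra hc
    push Not at hc
    nlinarith
  have hk2 : -1 < k := by
    by_contra hc
    push Not at hc
    nlinarith
  have : k = 0 := by omega
  rw [h, this, mul_zero]

theorem t_U : S_U := by
  intro P K A lab α j l hA hF hα hj hl hC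
  have ha := hA α hα
  have e1 : ∀ β : ℕ, β ∈ A → ∀ k : ℤ, 8 * (β : ℤ) - 8 * α = 16 * (P : ℤ) * k → β = α := by
    intro β hβ k hk
    have hb := hA β hβ
    have h3 := small_mult P k ((β : ℤ) - α) (by linarith) (by omega) (by omega)
    omega
  have e2 : ∀ β γ : ℕ, β ∈ A → γ ∈ A → ∀ k : ℤ,
      8 * (β : ℤ) + 8 * γ - 16 * α = 16 * (P : ℤ) * k → β = α ∧ γ = α := by
    intro β γ hβ hγ k hk
    have hb := hA β hβ
    have hc := hA γ hγ
    have h3 := small_mult P k ((β : ℤ) + γ - 2 * α) (by linarith) (by omega) (by omega)
    have h4 : β + γ = α + α := by omega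
    have h5 := hF hβ hα hγ h4
    omega
  unfold Cls at hC
  unfold Jp
  unfold st at hC
  push_cast at hC
  by_cases hj0 : j % K = 0
  · rw [if_pos hj0] at hC
    refine ⟨Or.inl hj0, ?_⟩
    by_cases hl0 : l % K = 0
    · exact Or.inl hl0
    · rw [if_neg hl0] at hC
      have hlA := hl hl0
      right
      by_cases hl1 : (l % K) % 2 = 1
      · rw [if_pos hl1] at hC
        rcases hC with h | h | h | h
        · obtain ⟨k, hk⟩ := (Int.modEq_iff_dvd.1 h)
          exact e1 _ hlA k (by linarith)
        all_goals
          exfalso
          obtain ⟨k, hk⟩ := (Int.modEq_iff_dvd.1 h)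
          generalize (P : ℤ) * k = y at *
          rw [mul_assoc] at hk
          generalize (P : ℤ) * k = y at hk
          omega
      · rw [if_neg hl1] at hC
        rcases hC with h | h | h | h
        all_goals
          exfalso
          obtain ⟨k, hk⟩ := (Int.modEq_iff_dvd.1 h)
          rw [mul_assoc] at hk
          generalize (P : ℤ) * k = y at hk
          omega
  · rw [if_neg hj0] at hC
    have hjA := hj hj0
    by_cases hl0 : l % K = 0
    · rw [if_pos hl0] at hC
      refine ⟨Or.inr ?_, Or.inl hl0⟩
      by_cases hj1 : (j % K) % 2 = 1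
      · rw [if_pos hj1] at hC
        rcases hC with h | h | h | h
        rotate_left 3
        · obtain ⟨k, hk⟩ := (Int.modEq_iff_dvd.1 h)
          exact e1 _ hjA (-k) (by linarith)
        all_goals
          exfalso
          obtain ⟨k, hk⟩ := (Int.modEq_iff_dvd.1 h)
          rw [mul_assoc] at hk
          generalize (P : ℤ) * k = y at hk
          omega
      · rw [if_neg hj1] at hC
        rcases hC with h | h | h | h
        all_goals
          exfalso
          obtain ⟨k, hk⟩ := (Int.modEq_iff_dvd.1 h)
          rw [mul_assoc] at hk
          generalize (P : ℤ) * k = y at hk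
          omega
    · rw [if_neg hl0] at hC
      have hlA := hl hl0
      by_cases hj1 : (j % K) % 2 = 1
      · rw [if_pos hj1] at hC
        by_cases hl1 : (l % K) % 2 = 1
        · rw [if_pos hl1] at hC
          exfalso
          rcases hC with h | h | h | h
          all_goals
            obtain ⟨k, hk⟩ := (Int.modEq_iff_dvd.1 h)
            rw [mul_assoc] at hk
            generalize (P : ℤ) * k = y at hk
            omega
        · rw [if_neg hl1] at hC
          rcases hC with h | h | h | h
          rotate_left 1
          · obtain ⟨k, hk⟩ := (Int.modEq_iff_dvd.1 h)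
            have h9 := e2 (lab (j / K)) (lab (l / K)) hjA hlA (-k) (by linarith)
            exact ⟨Or.inr h9.1, Or.inr h9.2⟩
          all_goals
            exfalso
            obtain ⟨k, hk⟩ := (Int.modEq_iff_dvd.1 h)
            rw [mul_assoc] at hk
            generalize (P : ℤ) * k = y at hk
            omega
      · rw [if_neg hj1] at hC
        by_cases hl1 : (l % K) % 2 = 1
        · rw [if_pos hl1] at hC
          rcases hC with h | h | h | h
          rotate_left 2
          · obtain ⟨k, hk⟩ := (Int.modEq_iff_dvd.1 h)
            have h9 := e2 (lab (j / K)) (lab (l / K)) hjA hlA k (by linarith)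
            exact ⟨Or.inr h9.1, Or.inr h9.2⟩
          all_goals
            exfalso
            obtain ⟨k, hk⟩ := (Int.modEq_iff_dvd.1 h)
            rw [mul_assoc] at hk
            generalize (P : ℤ) * k = y at hk
            omega
        · rw [if_neg hl1] at hC
          exfalso
          rcases hC with h | h | h | h
          all_goals
            obtain ⟨k, hk⟩ := (Int.modEq_iff_dvd.1 h)
            rw [mul_assoc] at hk
            generalize (P : ℤ) * k = y at hk
            omega

end Pool.Agent.V7H76.AD
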