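import Pool.Agent.V7H76.AD.Spec2
import Pool.Agent.V7H76.AD.CNT
import Pool.Agent.V7H76.AD.U
import Pool.Agent.V7H67.AD.BLK

set_option linter.all false

open Finset
open scoped Classical

namespace Pool.Agent.V7H76.AD

/-! ### The current generation, with `ParC` -/

namespace C2

section inv
variable {P m n0 i0 q0 : ℕ} {A : Finset ℕ} {b0 : ℕ → ℕ} (hp : ParC P m n0 i0 q0 A b0)
  {t q : ℕ} {b lab : ℕ → ℕ} {U : Finset ℕ} (hI : Inv P n0 q0 A b0 t q b lab U)
include hp hI

theorem lo (j : ℕ) (hj : j < t * P) : 2 ^ i0 ≤ b (n0 + j) := by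
  rw [← hp.hq]; exact (hI.rng j hj).1

theorem winlt (j d : ℕ) (hj : j + (d + 1) < t * P) :
    b (n0 + j) / (16 * P) < b (n0 + (j + (d + 1))) / (16 * P) := by
  induction d with
  | zero => exact hI.win j hj
  | succ d ih =>
    have h1 := ih (by omega)
    have h2 := hI.win (j + (d + 1)) (by omega)
    exact h1.trans (by rw [show j + (d + 1 + 1) = j + (d + 1) + 1 by ring]; exact h2)

theorem bmono (j j' : ℕ) (h : j ≤ j') (hj : j' < t * P) : b (n0 + j) ≤ b (n0 + j') := by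
  rcases Nat.eq_or_lt_of_le h with h | h
  · rw [h]
  · obtain ⟨d, rfl⟩ : ∃ d, j' = j + (d + 1) := ⟨j' - j - 1, by omega⟩
    have h1 := winlt hp hI j d hj
    by_contra hc
    push Not at hc
    exact absurd (Nat.div_le_div_right (c := 16 * P) hc.le) (not_le.2 h1)

theorem winge (j : ℕ) (hj : j < t * P) : j ≤ b (n0 + j) / (16 * P) := by
  induction j with
  | zero => exact Nat.zero_le _
  | succ j ih =>
    have h1 := ih (by omega)
    have h2 := hI.win j hj
    omega

theorem Sinc (l₁ l₂ c : ℕ) (h : l₁ ≤ l₂) (h2 : l₂ ≤ t * P) (hc : ∀ j, l₁ ≤ j → j < l₂ →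
    c ≤ b (n0 + j)) : S b (n0 + l₁) + (l₂ - l₁) * c ≤ S b (n0 + l₂) := by
  have h3 := S_add b c (n0 + l₁) (l₂ - l₁) (fun i hi hi' => by
    have h4 := hc (i - n0) (by omega) (by omega)
    rwa [show n0 + (i - n0) = i by omega] at h4)
  rwa [show n0 + l₁ + (l₂ - l₁) = n0 + l₂ by omega] at h3

theorem TT_span (i i' α j : ℕ) (hi : i' ≤ i) (hj : j < t * P) (hb : 2 ^ i' ≤ b (n0 + j)) :
    ∃ x y, TT P b lab n0 t α (2 ^ i) j ⊆ Ico x y ∧ y - x ≤ 2 ^ (i - i') := by
  refine span (TT P b lab n0 t α (2 ^ i) j) (fun l => S b (n0 + l)) (2 ^ i') (2 ^ i)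
    (S b (n0 + j)) (2 ^ (i - i')) (by positivity) (fun l hl => by
      rw [TT, mem_filter] at hl; exact hl.2.2) (fun l₁ h₁ l₂ h₂ h => ?_)
    (by rw [← pow_add]; congr 1; omega)
  rw [TT, mem_filter, mem_range] at h₁ h₂
  have h3 : j ≤ l₁ := by
    by_contra hc
    push Not at hc
    have h4 := S_mono b (show n0 + l₁ ≤ n0 + j by omega)
    have h5 : 0 < 2 ^ i := by positivity
    have h6 := h₁.2.2.1
    omega
  exact Sinc hp hI l₁ l₂ (2 ^ i') h (by omega) (fun j' h1' h2' =>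
    hb.trans (bmono hp hI j j' (by omega) (by omega)))

theorem TT_card (i i' α j : ℕ) (hi : i' ≤ i) (hj : j < t * P) (hb : 2 ^ i' ≤ b (n0 + j)) :
    (TT P b lab n0 t α (2 ^ i) j).card ≤ 2 ^ (i - i') := by
  obtain ⟨x, y, h1, h2⟩ := TT_span hp hI i i' α j hi hj hb
  calc _ ≤ (Ico x y).card := card_le_card h1
    _ ≤ _ := by rw [Nat.card_Ico]; exact h2

omit hI in
theorem card_le : A.card ≤ P := by
  have h : A ⊆ range P := fun α hα => mem_range.2 (hp.hA α hα)
  simpa using card_le_card h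

theorem TT_card2 (hB : S_BLK) (i i' α j : ℕ) (hα : α ∈ A) (hi : i' ≤ i) (hj : j < t * P)
    (hb : 2 ^ i' ≤ b (n0 + j)) (hfar : 2 * m + 1 ≤ i - i') :
    A.card * (TT P b lab n0 t α (2 ^ i) j).card ≤ 8 * 2 ^ (i - i') := by
  obtain ⟨x, y, h1, h2⟩ := TT_span hp hI i i' α j hi hj hb
  have hP : 0 < P := by rw [hp.hP]; positivity
  have h3 := hB P t A lab α hP (card_le hp) (fun g => hI.bal g α hα) x y
  have h4 : TT P b lab n0 t α (2 ^ i) j ⊆
      (Ico x y).filter (fun j => j ≤ t * P ∧ Jp P lab α j) := by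
    intro l hl
    rw [mem_filter]
    refine ⟨h1 hl, ?_⟩
    rw [TT, mem_filter, mem_range] at hl
    exact ⟨by omega, hl.2.1⟩
  have h5 := Nat.mul_le_mul_left A.card (card_le_card h4)
  have h6 : 2 * P * P ≤ 2 ^ (i - i') := by
    rw [hp.hP]
    calc 2 * 2 ^ m * 2 ^ m = 2 ^ (2 * m + 1) := by ring
      _ ≤ _ := Nat.pow_le_pow_right (by norm_num) hfar
  have h7 : 8 * P * P = 4 * (2 * P * P) := by ring
  calc _ ≤ _ := h5
    _ ≤ _ := h3
    _ ≤ 4 * 2 ^ (i - i') + 4 * 2 ^ (i - i') := by rw [h7]; omega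
    _ = _ := by ring

end inv

/-- the number of indices in a scale, for a finished or running generation -/
theorem BBg {P m n0 i0 : ℕ} {A : Finset ℕ} {t : ℕ} {b lab : ℕ → ℕ} (hP2 : P = 2 ^ m)
    (hAP : A.card ≤ P)
    (hi3 : 16 * P * P * P ≤ 2 ^ i0)
    (hbal : ∀ g, ∀ α ∈ A, A.card * ((range t).filter (fun r => r / P = g ∧ lab r = α)).card ≤ 3 * P)
    (hwin : ∀ j < t * P, j ≤ b (n0 + j) / (16 * P))
    (hB : S_BLK) (i' α : ℕ) (hα : α ∈ A) (hi : i0 ≤ i') :
    A.card * (16 * P) * (BB P b lab n0 t α i').card ≤ 16 * 2 ^ i' := by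
  have hP : 0 < P := by rw [hP2]; positivity
  have hd : ∃ y, y * (16 * P) = 2 ^ (i' + 1) := by
    have h1 : 2 ^ (m + 4) ≤ 2 ^ i0 := by
      have h2 := hi3
      rw [hP2] at h2
      refine le_trans ?_ h2
      rw [show 16 * 2 ^ m * 2 ^ m * 2 ^ m = 2 ^ (3 * m + 4) by ring]
      exact Nat.pow_le_pow_right (by norm_num) (by omega)
    have h2 : m + 4 ≤ i0 := (Nat.pow_le_pow_iff_right (by norm_num)).1 h1
    refine ⟨2 ^ (i' + 1 - (m + 4)), ?_⟩
    rw [hP2, show 16 * 2 ^ m = 2 ^ (m + 4) by ring, ← pow_add]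
    congr 1; omega
  obtain ⟨y, hy⟩ := hd
  have h3 := hB P t A lab α hP hAP (fun g => hbal g α hα) 0 y
  have h4 : BB P b lab n0 t α i' ⊆ (Ico 0 y).filter (fun j => j ≤ t * P ∧ Jp P lab α j) := by
    intro j hj
    rw [BB, mem_filter, mem_range] at hj
    rw [mem_filter, mem_Ico]
    refine ⟨⟨Nat.zero_le _, ?_⟩, hj.1.le, hj.2.1⟩
    have h5 := hwin j hj.1
    have h6 : b (n0 + j) / (16 * P) < y := by
      rw [Nat.div_lt_iff_lt_mul (by positivity), hy]; exact hj.2.2.2
    omega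
  have h5 := Nat.mul_le_mul_left A.card (card_le_card h4)
  have h6 : A.card * (BB P b lab n0 t α i').card ≤ 4 * y + 8 * P * P := by
    simpa using h5.trans h3
  have h7 : 2 ^ i0 ≤ 2 ^ i' := Nat.pow_le_pow_right (by norm_num) hi
  calc A.card * (16 * P) * (BB P b lab n0 t α i').card
      = (A.card * (BB P b lab n0 t α i').card) * (16 * P) := by ring
    _ ≤ (4 * y + 8 * P * P) * (16 * P) := Nat.mul_le_mul_right _ h6
    _ = 4 * (y * (16 * P)) + 8 * (16 * P * P * P) := by ring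
    _ ≤ 4 * 2 ^ (i' + 1) + 8 * 2 ^ i' := by rw [hy]; omega
    _ = _ := by ring

/-! ### abstract uniqueness -/

theorem U_abs (P : ℕ) (A : Finset ℕ) (α : ℕ) (hA : ∀ β ∈ A, β < P) (hF : ThreeAPFree (A : Set ℕ))
    (hα : α ∈ A) (v w : ℤ) (hv : VS A v) (hw : VS A w) (hC : Cls (16 * P) α (w - v)) :
    (v = 3 ∨ v = -8 * (α : ℤ) ∨ v = 8 * (α : ℤ) + 1) ∧
    (w = 3 ∨ w = -8 * (α : ℤ) ∨ w = 8 * (α : ℤ) + 1) := by
  have ha := hA α hα
  have e1 : ∀ β : ℕ, β ∈ A → ∀ k : ℤ, 8 * (β : ℤ) - 8 * α = 16 * (P : ℤ) * k → β = α := by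
    intro β hβ k hk
    have hb := hA β hβ
    have h3 := small_mult P k ((β : ℤ) - α) (by linarith) (by omega) (by omega)
    omega
  have e2 : ∀ β γ : ℕ, β ∈ A → γ ∈ A → ∀ k : ℤ,
      8 * (β : ℤ) + 8 * γ - 16 * α = 16 * (P : ℤ) * k → β = α ∧ γ = α := by
    intro β γ hβ hγ k hk
    have hb := hA β hβ
    have hc := hA γ hγ
    have h3 := small_mult P k ((β : ℤ) + γ - 2 * α) (by linarith) (by omega) (by omega)
    have h4 : β + γ = α + α := by omega
    have h5 := hF hβ hα hγ h4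
    omega
  unfold Cls at hC
  push_cast at hC
  rcases hv with rfl | ⟨β, hβ, rfl | rfl⟩
  · refine ⟨Or.inl rfl, ?_⟩
    rcases hw with rfl | ⟨γ, hγ, rfl | rfl⟩
    · exact Or.inl rfl
    · rcases hC with h | h | h | h
      · obtain ⟨k, hk⟩ := (Int.modEq_iff_dvd.1 h)
        have := e1 _ hγ k (by linarith)
        subst this
        exact Or.inr (Or.inl rfl)
      all_goals
        exfalso
        obtain ⟨k, hk⟩ := (Int.modEq_iff_dvd.1 h)
        rw [mul_assoc] at hk
        generalize (P : ℤ) * k = y at hk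
        omega
    · exfalso
      rcases hC with h | h | h | h
      all_goals
        obtain ⟨k, hk⟩ := (Int.modEq_iff_dvd.1 h)
        rw [mul_assoc] at hk
        generalize (P : ℤ) * k = y at hk
        omega
  · rcases hw with rfl | ⟨γ, hγ, rfl | rfl⟩
    · rcases hC with h | h | h | h
      rotate_left 3
      · obtain ⟨k, hk⟩ := (Int.modEq_iff_dvd.1 h)
        have := e1 _ hβ (-k) (by linarith)
        subst this
        exact ⟨Or.inr (Or.inl rfl), Or.inl rfl⟩
      all_goals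
        exfalso
        obtain ⟨k, hk⟩ := (Int.modEq_iff_dvd.1 h)
        rw [mul_assoc] at hk
        generalize (P : ℤ) * k = y at hk
        omega
    · exfalso
      rcases hC with h | h | h | h
      all_goals
        obtain ⟨k, hk⟩ := (Int.modEq_iff_dvd.1 h)
        rw [mul_assoc] at hk
        generalize (P : ℤ) * k = y at hk
        omega
    · rcases hC with h | h | h | h
      rotate_left 1
      · obtain ⟨k, hk⟩ := (Int.modEq_iff_dvd.1 h)
        have h9 := e2 β γ hβ hγ (-k) (by linarith)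
        obtain ⟨h9a, h9b⟩ := h9
        subst h9a; subst h9b
        exact ⟨Or.inr (Or.inl rfl), Or.inr (Or.inr rfl)⟩
      all_goals
        exfalso
        obtain ⟨k, hk⟩ := (Int.modEq_iff_dvd.1 h)
        rw [mul_assoc] at hk
        generalize (P : ℤ) * k = y at hk
        omega
  · rcases hw with rfl | ⟨γ, hγ, rfl | rfl⟩
    · exfalso
      rcases hC with h | h | h | h
      all_goals
        obtain ⟨k, hk⟩ := (Int.modEq_iff_dvd.1 h)
        rw [mul_assoc] at hk
        generalize (P : ℤ) * k = y at hk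
        omega
    · rcases hC with h | h | h | h
      rotate_left 2
      · obtain ⟨k, hk⟩ := (Int.modEq_iff_dvd.1 h)
        have h9 := e2 β γ hβ hγ k (by linarith)
        obtain ⟨h9a, h9b⟩ := h9
        subst h9a; subst h9b
        exact ⟨Or.inr (Or.inr rfl), Or.inr (Or.inl rfl)⟩
      all_goals
        exfalso
        obtain ⟨k, hk⟩ := (Int.modEq_iff_dvd.1 h)
        rw [mul_assoc] at hk
        generalize (P : ℤ) * k = y at hk
        omega
    · exfalso
      rcases hC with h | h | h | h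
      all_goals
        obtain ⟨k, hk⟩ := (Int.modEq_iff_dvd.1 h)
        rw [mul_assoc] at hk
        generalize (P : ℤ) * k = y at hk
        omega

theorem st_Jp (K : ℕ) (lab : ℕ → ℕ) (α j : ℕ)
    (h : st K lab j = 3 ∨ st K lab j = -8 * (α : ℤ) ∨ st K lab j = 8 * (α : ℤ) + 1) :
    Jp K lab α j := by
  unfold Jp
  unfold st at h
  by_cases hj : j % K = 0
  · exact Or.inl hj
  · right
    rw [if_neg hj] at h
    by_cases h1 : (j % K) % 2 = 1
    · rw [if_pos h1] at h
      omega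
    · rw [if_neg h1] at h
      omega

theorem st_VS (K : ℕ) (lab : ℕ → ℕ) (A : Finset ℕ) (j : ℕ) (h : j % K ≠ 0 → lab (j / K) ∈ A) :
    VS A (st K lab j) := by
  unfold VS st
  by_cases hj : j % K = 0
  · rw [if_pos hj]; exact Or.inl rfl
  · rw [if_neg hj]
    right
    refine ⟨lab (j / K), h hj, ?_⟩
    by_cases h1 : (j % K) % 2 = 1
    · rw [if_pos h1]; exact Or.inl rfl
    · rw [if_neg h1]; exact Or.inr rfl

theorem mod8 (P1 α : ℕ) : 8 * (α : ℤ) ≡ 8 * ((α % (2 * P1) : ℕ) : ℤ) [ZMOD ((16 * P1 : ℕ) : ℤ)] := by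
  rw [Int.modEq_iff_dvd]
  refine ⟨-((α / (2 * P1) : ℕ) : ℤ), ?_⟩
  have h := Nat.div_add_mod α (2 * P1)
  have h2 : (α : ℤ) = (2 * P1 : ℕ) * ((α / (2 * P1) : ℕ) : ℤ) + ((α % (2 * P1) : ℕ) : ℤ) := by
    exact_mod_cast h.symm
  rw [h2]
  push_cast
  ring

/-- the classes at the lower level -/
theorem Cls_red (P P1 Bf α : ℕ) (hP : P = Bf * P1) (z : ℤ) (h : Cls (16 * P) α z) :
    Cls (16 * P1) (α % (2 * P1)) z := by
  have hd : ((16 * P1 : ℕ) : ℤ) ∣ ((16 * P : ℕ) : ℤ) := by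
    rw [hP]
    exact ⟨Bf, by push_cast; ring⟩
  have h8 := mod8 P1 α
  have h16 : 16 * (α : ℤ) ≡ 16 * ((α % (2 * P1) : ℕ) : ℤ) [ZMOD ((16 * P1 : ℕ) : ℤ)] := by
    have := h8.mul_left 2
    rw [← mul_assoc, ← mul_assoc] at this
    norm_num at this ⊢
    exact this
  unfold Cls at h ⊢
  rcases h with h | h | h | h
  · left
    refine (h.of_dvd hd).trans ?_
    have := (h8.neg).sub_right 3
    convert this using 1 <;> ring
  · right; left
    refine (h.of_dvd hd).trans ?_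
    exact h16.add_right 1
  · right; right; left
    refine (h.of_dvd hd).trans ?_
    have := (h16.neg).sub_right 1
    convert this using 1 <;> ring
  · right; right; right
    refine (h.of_dvd hd).trans ?_
    exact h8.add_right 3

theorem st_red (K P1 : ℕ) (lab : ℕ → ℕ) (j : ℕ) :
    st K lab j ≡ st K (fun r => lab r % (2 * P1)) j [ZMOD ((16 * P1 : ℕ) : ℤ)] := by
  have h8 := mod8 P1 (lab (j / K))
  unfold st
  by_cases hj : j % K = 0
  · rw [if_pos hj, if_pos hj]
  · rw [if_neg hj, if_neg hj]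
    by_cases h1 : (j % K) % 2 = 1
    · rw [if_pos h1, if_pos h1]
      have := h8.neg
      convert this using 1 <;> ring
    · rw [if_neg h1, if_neg h1]
      exact h8.add_right 1

/-- level-one balance of the labels of the current generation -/
theorem bal2 {P t P1 : ℕ} {A A1 : Finset ℕ} {lab : ℕ → ℕ} (hA0 : 0 < A.card)
    (hlab : ∀ r < t, lab r ∈ A)
    (hbal : ∀ g, ∀ α ∈ A, A.card * ((range t).filter (fun r => r / P = g ∧ lab r = α)).card ≤ 3 * P)
    (fib : ∀ α' ∈ A1, A1.card * (A.filter (fun α => α % (2 * P1) = α')).card ≤ A.card)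
    (α' : ℕ) (hα' : α' ∈ A1) (g : ℕ) :
    A1.card * ((range t).filter (fun r => r / P = g ∧
      (fun r => lab r % (2 * P1)) r = α')).card ≤ 3 * P := by
  set F := A.filter (fun α => α % (2 * P1) = α') with hF
  have h1 : (range t).filter (fun r => r / P = g ∧ (fun r => lab r % (2 * P1)) r = α') ⊆
      F.biUnion (fun α => (range t).filter (fun r => r / P = g ∧ lab r = α)) := by
    intro r hr
    rw [mem_filter, mem_range] at hr
    rw [mem_biUnion]
    refine ⟨lab r, ?_, ?_⟩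
    · rw [hF, mem_filter]
      exact ⟨hlab r hr.1, hr.2.2⟩
    · rw [mem_filter, mem_range]
      exact ⟨hr.1, hr.2.1, rfl⟩
  have h2 : ((range t).filter (fun r => r / P = g ∧
      (fun r => lab r % (2 * P1)) r = α')).card ≤
      ∑ α ∈ F, ((range t).filter (fun r => r / P = g ∧ lab r = α)).card :=
    (card_le_card h1).trans card_biUnion_le
  refine Nat.le_of_mul_le_mul_left ?_ hA0
  calc A.card * (A1.card * ((range t).filter (fun r => r / P = g ∧
        (fun r => lab r % (2 * P1)) r = α')).card)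
      ≤ A.card * (A1.card * ∑ α ∈ F, ((range t).filter (fun r => r / P = g ∧ lab r = α)).card) :=
        Nat.mul_le_mul_left _ (Nat.mul_le_mul_left _ h2)
    _ = A1.card * ∑ α ∈ F, A.card * ((range t).filter (fun r => r / P = g ∧ lab r = α)).card := by
        rw [← mul_sum]; ring
    _ ≤ A1.card * ∑ α ∈ F, 3 * P := by
        refine Nat.mul_le_mul_left _ (sum_le_sum fun α hα => ?_)
        exact hbal g α (mem_filter.1 hα).1
    _ = (A1.card * F.card) * (3 * P) := by rw [sum_const, smul_eq_mul]; ring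
    _ ≤ A.card * (3 * P) := Nat.mul_le_mul_right _ (fib α' hα')

/-- coarse indices -/
def CJ (P P1 T1 : ℕ) (lab lab1 : ℕ → ℕ) (α' l : ℕ) : Prop :=
  (l ≤ T1 ∧ Jp P1 lab1 α' l) ∨ (T1 < l ∧ Jp P (fun r => lab r % (2 * P1)) α' (l - T1))

theorem CJ_count (hB : S_BLK) {P t P1 t1 : ℕ} {A1 : Finset ℕ} {lab lab1 : ℕ → ℕ} (hP : 1 ≤ P)
    (hP1 : 1 ≤ P1) (h11 : A1.card ≤ P1) (h1 : A1.card ≤ P) (h1P : P1 ≤ P) (α' : ℕ)
    (hb1 : ∀ g, A1.card * ((range t1).filter (fun r => r / P1 = g ∧ lab1 r = α')).card ≤ 3 * P1)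
    (hb2 : ∀ g, A1.card * ((range t).filter (fun r => r / P = g ∧
      (fun r => lab r % (2 * P1)) r = α')).card ≤ 3 * P) (x y : ℕ) :
    A1.card * ((Ico x y).filter (fun l => l ≤ t1 * P1 + t * P ∧
      CJ P P1 (t1 * P1) lab lab1 α' l)).card ≤ 4 * (y - x) + 16 * P * P := by
  set T1 := t1 * P1 with hT1
  have e1 := hB P1 t1 A1 lab1 α' hP1 h11 hb1 x (min y (T1 + 1))
  have e2 := hB P t A1 (fun r => lab r % (2 * P1)) α' hP h1 hb2 (max x (T1 + 1) - T1) (y - T1)
  have hsub : (Ico x y).filter (fun l => l ≤ T1 + t * P ∧ CJ P P1 T1 lab lab1 α' l) ⊆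
      ((Ico x (min y (T1 + 1))).filter (fun j => j ≤ t1 * P1 ∧ Jp P1 lab1 α' j)) ∪
      (((Ico (max x (T1 + 1) - T1) (y - T1)).filter
        (fun j => j ≤ t * P ∧ Jp P (fun r => lab r % (2 * P1)) α' j)).image (fun j => j + T1)) := by
    intro l hl
    rw [mem_filter, mem_Ico] at hl
    rw [mem_union]
    rcases hl.2.2 with h | h
    · left
      rw [mem_filter, mem_Ico, lt_min_iff]
      exact ⟨⟨hl.1.1, hl.1.2, by omega⟩, h.1, h.2⟩
    · right
      rw [mem_image]
      refine ⟨l - T1, ?_, by omega⟩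
      rw [mem_filter, mem_Ico]
      refine ⟨⟨?_, by omega⟩, by omega, h.2⟩
      have := hl.1.1
      rcases le_total x (T1 + 1) with h3 | h3
      · rw [max_eq_right h3]; omega
      · rw [max_eq_left h3]; omega
  have e3 := (card_le_card hsub).trans (card_union_le _ _)
  have e4 := card_image_le (s := (Ico (max x (T1 + 1) - T1) (y - T1)).filter
        (fun j => j ≤ t * P ∧ Jp P (fun r => lab r % (2 * P1)) α' j)) (f := fun j => j + T1)
  have e5 := Nat.mul_le_mul_left A1.card (e3.trans (Nat.add_le_add_left e4 _))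
  rw [Nat.mul_add] at e5
  have e6 : (min y (T1 + 1) - x) + ((y - T1) - (max x (T1 + 1) - T1)) ≤ y - x := by
    rcases le_total x (T1 + 1) with h3 | h3 <;> rcases le_total y (T1 + 1) with h4 | h4
    · rw [max_eq_right h3, min_eq_left h4]; omega
    · rw [max_eq_right h3, min_eq_right h4]; omega
    · rw [max_eq_left h3, min_eq_left h4]; omega
    · rw [max_eq_left h3, min_eq_right h4]; omega
  have e7 : P1 * P1 ≤ P * P := Nat.mul_le_mul h1P h1P
  have e8 : 8 * P1 * P1 = 8 * (P1 * P1) := by ring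
  have e9 : 8 * P * P = 8 * (P * P) := by ring
  have e10 : 16 * P * P = 16 * (P * P) := by ring
  rw [e8] at e1
  rw [e9] at e2
  rw [e10]
  omega

theorem gen_congr {P n0 i0 i1 : ℕ} {A : Finset ℕ} {t : ℕ} {b b' lab : ℕ → ℕ}
    (h : Gen P n0 i0 i1 A t b lab) (hb : ∀ j < n0 + t * P, b' j = b j) :
    Gen P n0 i0 i1 A t b' lab where
  rng := fun j hj => by rw [hb _ (by omega)]; exact h.rng j hj
  win := fun j hj => by rw [hb _ (by omega), hb _ (by omega)]; exact h.win j hj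
  res := fun j hj => by
    have e : ∀ l, l ≤ n0 + t * P → S b' l = S b l := fun l hl =>
      sum_congr rfl (fun j hj => hb j (by rw [mem_range] at hj; omega))
    rw [e _ (by omega), e _ (by omega)]
    exact h.res j hj
  labA := h.labA
  bal := h.bal

/-- the ends `l` (offset from `n1`) for a start `j` -/
noncomputable def T2 (Q : ℕ → Prop) (b : ℕ → ℕ) (n1 T X j : ℕ) : Finset ℕ :=
  (range (T + 1)).filter (fun l => Q l ∧ S b j + X ≤ S b (n1 + l) ∧
    S b (n1 + l) < S b j + 2 * X)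

/-- the ends `l` (offset from `n1`) for an old start `j` -/
noncomputable def T3 (b : ℕ → ℕ) (n1 T X j : ℕ) : Finset ℕ :=
  (range (T + 1)).filter (fun l => S b j + X ≤ S b (n1 + l) ∧
    S b (n1 + l) < S b j + 2 * X)

section hist
variable {P m n0 i0 q0 : ℕ} {A : Finset ℕ} {b0 : ℕ → ℕ} (hp : ParC P m n0 i0 q0 A b0)
  {P1 m1 n1 i1 : ℕ} {A1 : Finset ℕ} {t1 Bf : ℕ} {lab1 : ℕ → ℕ}
  (hH : Hist P m n0 i0 A P1 m1 n1 i1 A1 t1 Bf b0 lab1)
  {t q : ℕ} {b lab : ℕ → ℕ} {U : Finset ℕ} (hI : Inv P n0 q0 A b0 t q b lab U)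
include hp hH hI

theorem genb : Gen P1 n1 i1 i0 A1 t1 b lab1 :=
  gen_congr hH.gen (fun j hj => hI.old j (by rw [hH.hn]; exact hj))

theorem bge (j : ℕ) (hj : j < t1 * P1 + t * P) : 2 ^ i1 ≤ b (n1 + j) := by
  by_cases h : j < t1 * P1
  · exact ((genb hp hH hI).rng j h).1
  · have h1 := lo hp hI (j - t1 * P1) (by omega)
    rw [hH.hn, show n1 + t1 * P1 + (j - t1 * P1) = n1 + j by omega] at h1
    exact (Nat.pow_le_pow_right (by norm_num) hH.hi1).trans h1

theorem gwinlt (j d : ℕ) (hj : j + (d + 1) < t1 * P1) :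
    b (n1 + j) / (16 * P1) < b (n1 + (j + (d + 1))) / (16 * P1) := by
  have hG := genb hp hH hI
  induction d with
  | zero => exact hG.win j hj
  | succ d ih =>
    have h1 := ih (by omega)
    have h2 := hG.win (j + (d + 1)) (by omega)
    exact h1.trans (by rw [show j + (d + 1 + 1) = j + (d + 1) + 1 by ring]; exact h2)

theorem gwinge (j : ℕ) (hj : j < t1 * P1) : j ≤ b (n1 + j) / (16 * P1) := by
  have hG := genb hp hH hI
  induction j with
  | zero => exact Nat.zero_le _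
  | succ j ih =>
    have h1 := ih (by omega)
    have h2 := hG.win j hj
    omega

theorem gmono (j j' : ℕ) (h : j ≤ j') (hj : j' < t1 * P1 + t * P) :
    b (n1 + j) ≤ b (n1 + j') := by
  by_cases h1 : j' < t1 * P1
  · rcases Nat.eq_or_lt_of_le h with h | h
    · rw [h]
    · obtain ⟨d, rfl⟩ : ∃ d, j' = j + (d + 1) := ⟨j' - j - 1, by omega⟩
      have h1 := gwinlt hp hH hI j d h1
      by_contra hc
      push Not at hc
      exact absurd (Nat.div_le_div_right (c := 16 * P1) hc.le) (not_le.2 h1)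
  · have hlo := lo hp hI (j' - t1 * P1) (by omega)
    rw [hH.hn, show n1 + t1 * P1 + (j' - t1 * P1) = n1 + j' by omega] at hlo
    by_cases h2 : j < t1 * P1
    · exact (((genb hp hH hI).rng j h2).2.le).trans hlo
    · have h3 := bmono hp hI (j - t1 * P1) (j' - t1 * P1) (by omega) (by omega)
      rwa [hH.hn, show n1 + t1 * P1 + (j - t1 * P1) = n1 + j by omega,
        show n1 + t1 * P1 + (j' - t1 * P1) = n1 + j' by omega] at h3

theorem ginc (l₁ l₂ c : ℕ) (h : l₁ ≤ l₂) (hc : ∀ j, l₁ ≤ j → j < l₂ →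
    c ≤ b (n1 + j)) : S b (n1 + l₁) + (l₂ - l₁) * c ≤ S b (n1 + l₂) := by
  have h3 := S_add b c (n1 + l₁) (l₂ - l₁) (fun i hi hi' => by
    have h4 := hc (i - n1) (by omega) (by omega)
    rwa [show n1 + (i - n1) = i by omega] at h4)
  rwa [show n1 + l₁ + (l₂ - l₁) = n1 + l₂ by omega] at h3

/-- old starts -/
theorem TO2_card (i j : ℕ) (hi : i0 ≤ i) :
    (T3 b n1 (t1 * P1 + t * P) (2 ^ i) j).card ≤ 2 ^ (i - i1) := by
  have hi1 := hH.hi1
  obtain ⟨x, y, h1, h2⟩ := span (T3 b n1 (t1 * P1 + t * P) (2 ^ i) j)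
    (fun l => S b (n1 + l)) (2 ^ i1) (2 ^ i)
    (S b j) (2 ^ (i - i1)) (by positivity) (fun l hl => by
      rw [T3, mem_filter] at hl; exact hl.2) (fun l₁ h₁ l₂ h₂ h => by
      rw [T3, mem_filter, mem_range] at h₂
      exact ginc hp hH hI l₁ l₂ (2 ^ i1) h (fun j _ hj' => bge hp hH hI j (by omega)))
    (by rw [← pow_add]; congr 1; omega)
  calc _ ≤ (Ico x y).card := card_le_card h1
    _ ≤ _ := by rw [Nat.card_Ico]; exact h2

theorem T2_span (Q : ℕ → Prop) (i i' j : ℕ) (hi : i' ≤ i) (hj : j < t1 * P1)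
    (hb : 2 ^ i' ≤ b (n1 + j)) :
    ∃ x y, T2 Q b n1 (t1 * P1 + t * P) (2 ^ i) (n1 + j) ⊆ Ico x y ∧ y - x ≤ 2 ^ (i - i') := by
  refine span (T2 Q b n1 (t1 * P1 + t * P) (2 ^ i) (n1 + j)) (fun l => S b (n1 + l))
    (2 ^ i') (2 ^ i) (S b (n1 + j)) (2 ^ (i - i')) (by positivity) (fun l hl => by
      rw [T2, mem_filter] at hl; exact hl.2.2) (fun l₁ h₁ l₂ h₂ h => ?_)
    (by rw [← pow_add]; congr 1; omega)
  rw [T2, mem_filter, mem_range] at h₁ h₂
  have h3 : j ≤ l₁ := by
    by_contra hc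
    push Not at hc
    have h4 := S_mono b (show n1 + l₁ ≤ n1 + j by omega)
    have h5 : 0 < 2 ^ i := by positivity
    have h6 := h₁.2.2.1
    omega
  exact ginc hp hH hI l₁ l₂ (2 ^ i') h (fun j' h1' h2' =>
    hb.trans (gmono hp hH hI j j' (by omega) (by omega)))

theorem T2_card (Q : ℕ → Prop) (i i' j : ℕ) (hi : i' ≤ i) (hj : j < t1 * P1)
    (hb : 2 ^ i' ≤ b (n1 + j)) :
    (T2 Q b n1 (t1 * P1 + t * P) (2 ^ i) (n1 + j)).card ≤ 2 ^ (i - i') := by
  obtain ⟨x, y, h1, h2⟩ := T2_span hp hH hI Q i i' j hi hj hb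
  calc _ ≤ (Ico x y).card := card_le_card h1
    _ ≤ _ := by rw [Nat.card_Ico]; exact h2

omit hp hI in
theorem A1P1 : A1.card ≤ P1 := by
  have h : A1 ⊆ range P1 := fun α hα => mem_range.2 (hH.hA1 α hα)
  simpa using card_le_card h

omit hp hI in
theorem P1P : P1 ≤ P := by
  rw [hH.hP]
  exact Nat.le_mul_of_pos_left _ hH.hBf

theorem T2_card2 (hB : S_BLK) (i i' α' j : ℕ) (hα : α' ∈ A1) (hi : i' ≤ i) (hj : j < t1 * P1)
    (hb : 2 ^ i' ≤ b (n1 + j)) (hfar : 2 * m + 2 ≤ i - i') :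
    A1.card * (T2 (CJ P P1 (t1 * P1) lab lab1 α') b n1 (t1 * P1 + t * P) (2 ^ i)
      (n1 + j)).card ≤ 8 * 2 ^ (i - i') := by
  obtain ⟨x, y, h1, h2⟩ := T2_span hp hH hI (CJ P P1 (t1 * P1) lab lab1 α') i i' j hi hj hb
  have hP : 1 ≤ P := by rw [hp.hP]; exact Nat.one_le_two_pow
  have hP1 : 1 ≤ P1 := by rw [hH.hP1]; exact Nat.one_le_two_pow
  have hA0 : 0 < A.card := by have := hp.hN; omega
  have h3 := CJ_count hB (t := t) (t1 := t1) (A1 := A1) (lab := lab) (lab1 := lab1) hP hP1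
    (A1P1 hH) ((A1P1 hH).trans (P1P hH)) (P1P hH) α' (fun g => hH.gen.bal g α' hα)
    (fun g => bal2 hA0 hI.labA hI.bal hH.fib α' hα g) x y
  have h4 : T2 (CJ P P1 (t1 * P1) lab lab1 α') b n1 (t1 * P1 + t * P) (2 ^ i) (n1 + j) ⊆
      (Ico x y).filter (fun l => l ≤ t1 * P1 + t * P ∧ CJ P P1 (t1 * P1) lab lab1 α' l) := by
    intro l hl
    rw [mem_filter]
    refine ⟨h1 hl, ?_⟩
    rw [T2, mem_filter, mem_range] at hl
    exact ⟨by omega, hl.2.1⟩
  have h5 := Nat.mul_le_mul_left A1.card (card_le_card h4)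
  have h6 : 4 * P * P ≤ 2 ^ (i - i') := by
    rw [hp.hP]
    calc 4 * 2 ^ m * 2 ^ m = 2 ^ (2 * m + 2) := by ring
      _ ≤ _ := Nat.pow_le_pow_right (by norm_num) hfar
  have h7 : 16 * P * P = 4 * (4 * P * P) := by ring
  calc _ ≤ _ := h5
    _ ≤ _ := h3
    _ ≤ 4 * 2 ^ (i - i') + 4 * 2 ^ (i - i') := by rw [h7]; omega
    _ = _ := by ring

/-- the coarse state -/
theorem coarse (l : ℕ) (hl : l ≤ t1 * P1 + t * P) : ∃ w : ℤ, VS A1 w ∧
    (S b (n1 + l) : ℤ) ≡ w + (S b n1 - 3) [ZMOD ((16 * P1 : ℕ) : ℤ)] ∧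
    (∀ α' : ℕ, (w = 3 ∨ w = -8 * (α' : ℤ) ∨ w = 8 * (α' : ℤ) + 1) →
      CJ P P1 (t1 * P1) lab lab1 α' l) ∧
    (l ≤ t1 * P1 → w = st P1 lab1 l) := by
  have hG := genb hp hH hI
  have hP1 : 0 < P1 := by rw [hH.hP1]; positivity
  have hP : 0 < P := by rw [hp.hP]; positivity
  by_cases h : l ≤ t1 * P1
  · refine ⟨st P1 lab1 l, ?_, ?_, ?_, fun _ => rfl⟩
    · refine st_VS P1 lab1 A1 l (fun h0 => hG.labA _ ?_)
      rw [Nat.div_lt_iff_lt_mul hP1]
      rcases Nat.lt_or_eq_of_le h with h' | h'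
      · exact h'
      · exfalso; apply h0; rw [h']; exact Nat.mul_mod_left t1 P1
    · have h1 := hG.res l h
      have h2 := h1.add_right ((S b n1 : ℤ) - 3)
      convert h2 using 1
      ring
    · intro α' hα
      exact Or.inl ⟨h, st_Jp P1 lab1 α' l hα⟩
  · push Not at h
    obtain ⟨l', rfl⟩ : ∃ l', l = t1 * P1 + l' := ⟨l - t1 * P1, by omega⟩
    have hl' : l' ≤ t * P := by omega
    refine ⟨st P (fun r => lab r % (2 * P1)) l', ?_, ?_, ?_, ?_⟩
    · refine st_VS P _ A1 l' (fun h0 => ?_)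
      refine hH.proj _ (hI.labA _ ?_)
      rw [Nat.div_lt_iff_lt_mul hP]
      rcases Nat.lt_or_eq_of_le hl' with h' | h'
      · exact h'
      · exfalso; apply h0; rw [h']; exact Nat.mul_mod_left t P
    · have hd : ((16 * P1 : ℕ) : ℤ) ∣ ((16 * P : ℕ) : ℤ) := by
        rw [hH.hP]
        exact ⟨Bf, by push_cast; ring⟩
      have h1 := (hI.res l' hl').of_dvd hd
      have h2 := h1.trans (st_red P P1 lab l')
      have h3 := hG.res (t1 * P1) le_rfl
      have h4 : st P1 lab1 (t1 * P1) = 3 := by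
        unfold st
        rw [if_pos (Nat.mul_mod_left t1 P1)]
      rw [h4, ← hH.hn] at h3
      have h5 := h2.add h3
      have h6 := h5.add_right ((S b n1 : ℤ) - 6)
      rw [show n1 + (t1 * P1 + l') = n0 + l' by rw [hH.hn]; ring]
      convert h6 using 1 <;> ring
    · intro α' hα
      refine Or.inr ⟨h, ?_⟩
      rw [Nat.add_sub_cancel_left]
      exact st_Jp P _ α' l' hα
    · intro h'
      omega

theorem Z_sub2 (i α : ℕ) (hα : α ∈ A) (hi : i0 ≤ i) :
    (Ico (2 ^ i) (2 ^ (i + 1))).filter (fun z : ℕ => Cls (16 * P) α z ∧ Dg b (n0 + t * P) z) ⊆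
      ((Icc i0 i).biUnion (fun i' => (BB P b lab n0 t α i').biUnion (fun j =>
        (TT P b lab n0 t α (2 ^ i) j).image (fun l => S b (n0 + l) - S b (n0 + j)))) ∪
      (Ico i1 i0).biUnion (fun i' => (BB P1 b lab1 n1 t1 (α % (2 * P1)) i').biUnion (fun j =>
        (T2 (CJ P P1 (t1 * P1) lab lab1 (α % (2 * P1))) b n1 (t1 * P1 + t * P) (2 ^ i)
          (n1 + j)).image (fun l => S b (n1 + l) - S b (n1 + j))))) ∪
      ((range n1).filter (fun j => Comp P1 A1 ((S b0 n1 : ℤ) - 3) b0 (α % (2 * P1)) j)).biUnion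
        (fun j => (T3 b n1 (t1 * P1 + t * P) (2 ^ i) j).image
        (fun l => S b (n1 + l) - S b j)) := by
  have hG := genb hp hH hI
  have hP : 0 < P := by rw [hp.hP]; positivity
  have hP1 : 0 < P1 := by rw [hH.hP1]; positivity
  intro z hz
  rw [mem_filter, mem_Ico] at hz
  obtain ⟨⟨hz1, hz2⟩, hcls, j, l, hjl, hln, hS⟩ := hz
  have hpow : 2 ^ (i + 1) = 2 * 2 ^ i := by ring
  have hi2 : 2 ^ i0 ≤ 2 ^ i := Nat.pow_le_pow_right (by norm_num) hi
  have hn01 := hH.hn
  have hSb : ∀ x, x ≤ n0 → S b x = S b0 x := fun x hx =>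
    sum_congr rfl (fun j hj => hI.old j (by rw [mem_range] at hj; omega))
  have hn1 : S b n1 < 2 ^ i0 := by
    rw [hSb n1 (by omega)]; exact hH.sum
  have hl1 : n1 < l := by
    by_contra hc
    push Not at hc
    have h1 := S_mono b hc
    omega
  have hα1 : α % (2 * P1) ∈ A1 := hH.proj α hα
  have hcls1 := Cls_red P P1 Bf α hH.hP z hcls
  by_cases hj0 : n0 ≤ j
  · -- both new
    apply mem_union_left
    apply mem_union_left
    obtain ⟨j', rfl⟩ : ∃ j', j = n0 + j' := ⟨j - n0, by omega⟩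
    obtain ⟨l', rfl⟩ : ∃ l', l = n0 + l' := ⟨l - n0, by omega⟩
    have hj' : j' < t * P := by omega
    have hl' : l' ≤ t * P := by omega
    have h1 : b (n0 + j') ≤ z := by
      have h2 := S_mono b (show n0 + j' + 1 ≤ n0 + l' by omega)
      rw [S_succ] at h2
      omega
    have h3 := lo hp hI j' hj'
    have hne : b (n0 + j') ≠ 0 := by
      have : 0 < 2 ^ i0 := by positivity
      omega
    have hres : (z : ℤ) ≡ st P lab l' - st P lab j' [ZMOD ((16 * P : ℕ) : ℤ)] := by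
      have h4 := (hI.res l' hl').sub (hI.res j' hj'.le)
      have h5 : ((S b (n0 + l') : ℤ) - S b n0 + 3) - ((S b (n0 + j') : ℤ) - S b n0 + 3) = z := by
        have : (S b (n0 + l') : ℤ) = S b (n0 + j') + z := by exact_mod_cast hS
        rw [this]; ring
      rwa [h5] at h4
    have hC : Cls (16 * P) α (st P lab l' - st P lab j') := by
      rcases hcls with h | h | h | h
      · exact Or.inl (hres.symm.trans h)
      · exact Or.inr (Or.inl (hres.symm.trans h))
      · exact Or.inr (Or.inr (Or.inl (hres.symm.trans h)))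
      · exact Or.inr (Or.inr (Or.inr (hres.symm.trans h)))
    have hlt : ∀ x, x ≤ t * P → x % P ≠ 0 → x / P < t := by
      intro x hx hx0
      rw [Nat.div_lt_iff_lt_mul hP]
      rcases Nat.lt_or_eq_of_le hx with h | h
      · exact h
      · exfalso; apply hx0; rw [h]; exact Nat.mul_mod_left t P
    have hJ := t_U P P A lab α j' l' hp.hA hp.hF hα (fun h => hI.labA _ (hlt _ hj'.le h))
      (fun h => hI.labA _ (hlt _ hl' h)) hC
    rw [mem_biUnion]
    refine ⟨Nat.log 2 (b (n0 + j')), ?_, ?_⟩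
    · rw [mem_Icc]
      constructor
      · exact Nat.le_log_of_pow_le (by norm_num) h3
      · have h6 : Nat.log 2 (b (n0 + j')) < i + 1 :=
          Nat.log_lt_of_lt_pow hne (by omega)
        omega
    · rw [mem_biUnion]
      refine ⟨j', ?_, ?_⟩
      · rw [BB, mem_filter, mem_range]
        exact ⟨hj', hJ.1, Nat.pow_log_le_self 2 hne, Nat.lt_pow_succ_log_self (by norm_num) _⟩
      · rw [mem_image]
        refine ⟨l', ?_, by omega⟩
        rw [TT, mem_filter, mem_range]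
        exact ⟨by omega, hJ.2, by omega, by omega⟩
  · obtain ⟨l', rfl⟩ : ∃ l', l = n1 + l' := ⟨l - n1, by omega⟩
    have hl' : l' ≤ t1 * P1 + t * P := by omega
    obtain ⟨w, hw1, hw2, hw3, _⟩ := coarse hp hH hI l' hl'
    by_cases hj1 : n1 ≤ j
    · -- the start is in the previous generation
      apply mem_union_left
      apply mem_union_right
      obtain ⟨j', rfl⟩ : ∃ j', j = n1 + j' := ⟨j - n1, by omega⟩
      have hj' : j' < t1 * P1 := by omega
      obtain ⟨v, hv1, hv2, hv3, hv4⟩ := coarse hp hH hI j' (by omega)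
      have hres : (z : ℤ) ≡ w - v [ZMOD ((16 * P1 : ℕ) : ℤ)] := by
        have h4 := hw2.sub hv2
        have h5 : (S b (n1 + l') : ℤ) - S b (n1 + j') = z := by
          have : (S b (n1 + l') : ℤ) = S b (n1 + j') + z := by exact_mod_cast hS
          rw [this]; ring
        rw [h5] at h4
        convert h4 using 1
        ring
      have hC : Cls (16 * P1) (α % (2 * P1)) (w - v) := by
        rcases hcls1 with h | h | h | h
        · exact Or.inl (hres.symm.trans h)
        · exact Or.inr (Or.inl (hres.symm.trans h))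
        · exact Or.inr (Or.inr (Or.inl (hres.symm.trans h)))
        · exact Or.inr (Or.inr (Or.inr (hres.symm.trans h)))
      have hUU := U_abs P1 A1 (α % (2 * P1)) hH.hA1 hH.hF1 hα1 v w hv1 hw1 hC
      have hJl := hw3 _ hUU.2
      have hJj : Jp P1 lab1 (α % (2 * P1)) j' := by
        apply st_Jp
        rw [← hv4 hj'.le]
        exact hUU.1
      have h1 : b (n1 + j') ≤ z := by
        have h2 := S_mono b (show n1 + j' + 1 ≤ n1 + l' by omega)
        rw [S_succ] at h2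
        omega
      have h3 := (hG.rng j' hj').1
      have h3' := (hG.rng j' hj').2
      have hne : b (n1 + j') ≠ 0 := by
        have : 0 < 2 ^ i1 := by positivity
        omega
      rw [mem_biUnion]
      refine ⟨Nat.log 2 (b (n1 + j')), ?_, ?_⟩
      · rw [mem_Ico]
        constructor
        · exact Nat.le_log_of_pow_le (by norm_num) h3
        · exact Nat.log_lt_of_lt_pow hne h3'
      · rw [mem_biUnion]
        refine ⟨j', ?_, ?_⟩
        · rw [BB, mem_filter, mem_range]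
          exact ⟨hj', hJj, Nat.pow_log_le_self 2 hne, Nat.lt_pow_succ_log_self (by norm_num) _⟩
        · rw [mem_image]
          refine ⟨l', ?_, by omega⟩
          rw [T2, mem_filter, mem_range]
          exact ⟨by omega, hJl, by omega, by omega⟩
    · -- the start is older
      apply mem_union_right
      rw [mem_biUnion]
      refine ⟨j, ?_, ?_⟩
      · rw [mem_filter, mem_range]
        refine ⟨by omega, w, hw1, ?_⟩
        have hres : (z : ℤ) ≡ w + ((S b0 n1 : ℤ) - 3) - S b0 j [ZMOD ((16 * P1 : ℕ) : ℤ)] := by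
          have h4 := hw2.sub_right (S b j : ℤ)
          have h5 : (S b (n1 + l') : ℤ) - S b j = z := by
            have : (S b (n1 + l') : ℤ) = S b j + z := by exact_mod_cast hS
            rw [this]; ring
          rw [h5, hSb n1 (by omega), hSb j (by omega)] at h4
          exact h4
        rcases hcls1 with h | h | h | h
        · exact Or.inl (hres.symm.trans h)
        · exact Or.inr (Or.inl (hres.symm.trans h))
        · exact Or.inr (Or.inr (Or.inl (hres.symm.trans h)))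
        · exact Or.inr (Or.inr (Or.inr (hres.symm.trans h)))
      · rw [mem_image]
        refine ⟨l', ?_, by omega⟩
        rw [T3, mem_filter, mem_range]
        exact ⟨by omega, by omega, by omega⟩

end hist

end C2

open C2

theorem t_CNT2 (hB : S_BLK) : S_CNT2 := by
  intro P m n0 i0 q0 L A b0 hp P1 m1 n1 i1 A1 t1 Bf lab1 hH hLA t q b lab U hI i hi hiL α hα
  have hP : 0 < P := by rw [hp.hP]; positivity
  have hP1 : 0 < P1 := by rw [hH.hP1]; positivity
  have hBf := hH.hBf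
  set N := A.card with hN
  set N1 := A1.card with hN1
  have hNpos : 0 < N := by have := hp.hN; omega
  have hN1pos : 0 < N1 := by
    have h1 := hH.hB2
    have h2 : 1 ≤ 16384 * Bf * (m + 1) := by
      have : 0 < 16384 * Bf * (m + 1) := by positivity
      omega
    omega
  set α' := α % (2 * P1) with hα'
  have hα1 : α' ∈ A1 := hH.proj α hα
  -- the sums over the scales
  set E : ℕ → ℕ := fun i' => ∑ j ∈ BB P b lab n0 t α i', (TT P b lab n0 t α (2 ^ i) j).card with hE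
  set F : ℕ → ℕ := fun i' => ∑ j ∈ BB P1 b lab1 n1 t1 α' i',
    (T2 (CJ P P1 (t1 * P1) lab lab1 α') b n1 (t1 * P1 + t * P) (2 ^ i) (n1 + j)).card with hF
  set CS := (range n1).filter (fun j => Comp P1 A1 ((S b0 n1 : ℤ) - 3) b0 α' j) with hCS
  set C : ℕ := ∑ j ∈ CS, (T3 b n1 (t1 * P1 + t * P) (2 ^ i) j).card with hC
  have hZ : ((Ico (2 ^ i) (2 ^ (i + 1))).filter
      (fun z : ℕ => Cls (16 * P) α z ∧ Dg b (n0 + t * P) z)).card ≤
      (∑ i' ∈ Icc i0 i, E i' + ∑ i' ∈ Ico i1 i0, F i') + C := by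
    refine (card_le_card (Z_sub2 hp hH hI i α hα hi)).trans ?_
    refine (card_union_le _ _).trans ?_
    refine Nat.add_le_add ?_ ?_
    · refine (card_union_le _ _).trans ?_
      refine Nat.add_le_add ?_ ?_
      · refine card_biUnion_le.trans (sum_le_sum fun i' _ => ?_)
        refine card_biUnion_le.trans (sum_le_sum fun j _ => card_image_le)
      · refine card_biUnion_le.trans (sum_le_sum fun i' _ => ?_)
        refine card_biUnion_le.trans (sum_le_sum fun j _ => card_image_le)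
    · exact card_biUnion_le.trans (sum_le_sum fun j _ => card_image_le)
  have hi10 := hH.hi1
  -- C
  have hCb : 256 * (16 * P) * C ≤ 2 ^ i := by
    have h1 : C ≤ CS.card * 2 ^ (i - i1) := by
      calc C ≤ ∑ j ∈ CS, 2 ^ (i - i1) := sum_le_sum fun j _ => TO2_card hp hH hI i j hi
        _ = _ := by simp
    calc 256 * (16 * P) * C ≤ 256 * (16 * P) * (CS.card * 2 ^ (i - i1)) :=
          Nat.mul_le_mul_left _ h1
      _ = (256 * (16 * P) * CS.card) * 2 ^ (i - i1) := by ring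
      _ ≤ 2 ^ i1 * 2 ^ (i - i1) := Nat.mul_le_mul_right _ (hH.cmp α hα)
      _ = 2 ^ i := by rw [← pow_add]; congr 1; omega
  -- E
  have hEb : ∀ i' ∈ Icc i0 i, N ^ 2 * (16 * P) * E i' ≤
      128 * 2 ^ i + (if i - i' ≤ 2 * m then 16 * N * 2 ^ i else 0) := by
    intro i' hi'
    rw [mem_Icc] at hi'
    have hBB := BBg (n0 := n0) (b := b) (lab := lab) hp.hP (C2.card_le hp) hp.hi hI.bal
      (fun j hj => C2.winge hp hI j hj) hB i' α hα hi'.1
    have hpw : 2 ^ i' * 2 ^ (i - i') = 2 ^ i := by rw [← pow_add]; congr 1; omega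
    have hmem : ∀ j ∈ BB P b lab n0 t α i', j < t * P ∧ 2 ^ i' ≤ b (n0 + j) := by
      intro j hj
      rw [BB, mem_filter, mem_range] at hj
      exact ⟨hj.1, hj.2.2.1⟩
    by_cases h : i - i' ≤ 2 * m
    · rw [if_pos h]
      have h1 : E i' ≤ (BB P b lab n0 t α i').card * 2 ^ (i - i') := by
        calc E i' ≤ ∑ j ∈ BB P b lab n0 t α i', 2 ^ (i - i') :=
              sum_le_sum fun j hj => C2.TT_card hp hI i i' α j hi'.2 (hmem j hj).1 (hmem j hj).2
          _ = _ := by simp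
      calc N ^ 2 * (16 * P) * E i'
          ≤ N ^ 2 * (16 * P) * ((BB P b lab n0 t α i').card * 2 ^ (i - i')) :=
            Nat.mul_le_mul_left _ h1
        _ = N * (N * (16 * P) * (BB P b lab n0 t α i').card) * 2 ^ (i - i') := by ring
        _ ≤ N * (16 * 2 ^ i') * 2 ^ (i - i') :=
            Nat.mul_le_mul_right _ (Nat.mul_le_mul_left _ hBB)
        _ = 16 * N * (2 ^ i' * 2 ^ (i - i')) := by ring
        _ = 16 * N * 2 ^ i := by rw [hpw]
        _ ≤ _ := Nat.le_add_left _ _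
    · rw [if_neg h]
      have h1 : N * E i' ≤ (BB P b lab n0 t α i').card * (8 * 2 ^ (i - i')) := by
        calc N * E i' = ∑ j ∈ BB P b lab n0 t α i', N * (TT P b lab n0 t α (2 ^ i) j).card :=
              mul_sum _ _ _
          _ ≤ ∑ j ∈ BB P b lab n0 t α i', 8 * 2 ^ (i - i') :=
              sum_le_sum fun j hj => C2.TT_card2 hp hI hB i i' α j hα hi'.2 (hmem j hj).1
                (hmem j hj).2 (by omega)
          _ = _ := by simp
      calc N ^ 2 * (16 * P) * E i' = N * (16 * P) * (N * E i') := by ring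
        _ ≤ N * (16 * P) * ((BB P b lab n0 t α i').card * (8 * 2 ^ (i - i'))) :=
            Nat.mul_le_mul_left _ h1
        _ = (N * (16 * P) * (BB P b lab n0 t α i').card) * (8 * 2 ^ (i - i')) := by ring
        _ ≤ (16 * 2 ^ i') * (8 * 2 ^ (i - i')) := Nat.mul_le_mul_right _ hBB
        _ = 128 * (2 ^ i' * 2 ^ (i - i')) := by ring
        _ = 128 * 2 ^ i := by rw [hpw]
        _ ≤ _ := Nat.le_add_right _ _
  have hsum : N ^ 2 * (16 * P) * ∑ i' ∈ Icc i0 i, E i' ≤
      L * (128 * 2 ^ i) + (2 * m + 1) * (16 * N * 2 ^ i) := by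
    rw [mul_sum]
    refine (sum_le_sum hEb).trans ?_
    rw [sum_add_distrib]
    refine Nat.add_le_add ?_ ?_
    · rw [sum_const, smul_eq_mul, Nat.card_Icc]
      exact Nat.mul_le_mul_right _ (by omega)
    · rw [← sum_filter, sum_const, smul_eq_mul]
      refine Nat.mul_le_mul_right _ ?_
      have h1 : (Icc i0 i).filter (fun i' => i - i' ≤ 2 * m) ⊆ Icc (i - 2 * m) i := by
        intro x hx
        rw [mem_filter, mem_Icc] at hx
        rw [mem_Icc]
        omega
      refine (card_le_card h1).trans ?_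
      rw [Nat.card_Icc]; omega
  have hfin : 128 * (16 * P) * ∑ i' ∈ Icc i0 i, E i' ≤ 2 * 2 ^ i := by
    have h1 : 0 < N ^ 2 := by positivity
    refine Nat.le_of_mul_le_mul_left ?_ h1
    have h2 : 2048 * (2 * m + 1) ≤ N := hp.hN
    have h3 : 16384 * L ≤ N ^ 2 := hLA
    calc N ^ 2 * (128 * (16 * P) * ∑ i' ∈ Icc i0 i, E i')
        = 128 * (N ^ 2 * (16 * P) * ∑ i' ∈ Icc i0 i, E i') := by ring
      _ ≤ 128 * (L * (128 * 2 ^ i) + (2 * m + 1) * (16 * N * 2 ^ i)) :=
          Nat.mul_le_mul_left _ hsum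
      _ = (16384 * L) * 2 ^ i + (2048 * (2 * m + 1)) * N * 2 ^ i := by ring
      _ ≤ N ^ 2 * 2 ^ i + N * N * 2 ^ i :=
          Nat.add_le_add (Nat.mul_le_mul_right _ h3)
            (Nat.mul_le_mul_right _ (Nat.mul_le_mul_right _ h2))
      _ = N ^ 2 * (2 * 2 ^ i) := by ring
  -- F
  have hFb : ∀ i' ∈ Ico i1 i0, N1 ^ 2 * (16 * P1) * F i' ≤
      128 * 2 ^ i + (if i - i' < 2 * m + 2 then 16 * N1 * 2 ^ i else 0) := by
    intro i' hi'
    rw [mem_Ico] at hi'
    have hii : i' ≤ i := by omega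
    have hBB := BBg (n0 := n1) (b := b) (lab := lab1) hH.hP1 (A1P1 hH) hH.hi3 hH.gen.bal
      (fun j hj => gwinge hp hH hI j hj) hB i' α' hα1 hi'.1
    have hpw : 2 ^ i' * 2 ^ (i - i') = 2 ^ i := by rw [← pow_add]; congr 1; omega
    have hmem : ∀ j ∈ BB P1 b lab1 n1 t1 α' i', j < t1 * P1 ∧ 2 ^ i' ≤ b (n1 + j) := by
      intro j hj
      rw [BB, mem_filter, mem_range] at hj
      exact ⟨hj.1, hj.2.2.1⟩
    by_cases h : i - i' < 2 * m + 2
    · rw [if_pos h]
      have h1 : F i' ≤ (BB P1 b lab1 n1 t1 α' i').card * 2 ^ (i - i') := by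
        calc F i' ≤ ∑ j ∈ BB P1 b lab1 n1 t1 α' i', 2 ^ (i - i') :=
              sum_le_sum fun j hj => T2_card hp hH hI _ i i' j hii (hmem j hj).1 (hmem j hj).2
          _ = _ := by simp
      calc N1 ^ 2 * (16 * P1) * F i'
          ≤ N1 ^ 2 * (16 * P1) * ((BB P1 b lab1 n1 t1 α' i').card * 2 ^ (i - i')) :=
            Nat.mul_le_mul_left _ h1
        _ = N1 * (N1 * (16 * P1) * (BB P1 b lab1 n1 t1 α' i').card) * 2 ^ (i - i') := by ring
        _ ≤ N1 * (16 * 2 ^ i') * 2 ^ (i - i') :=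
            Nat.mul_le_mul_right _ (Nat.mul_le_mul_left _ hBB)
        _ = 16 * N1 * (2 ^ i' * 2 ^ (i - i')) := by ring
        _ = 16 * N1 * 2 ^ i := by rw [hpw]
        _ ≤ _ := Nat.le_add_left _ _
    · rw [if_neg h]
      have h1 : N1 * F i' ≤ (BB P1 b lab1 n1 t1 α' i').card * (8 * 2 ^ (i - i')) := by
        calc N1 * F i' = ∑ j ∈ BB P1 b lab1 n1 t1 α' i', N1 *
              (T2 (CJ P P1 (t1 * P1) lab lab1 α') b n1 (t1 * P1 + t * P) (2 ^ i)
                (n1 + j)).card := mul_sum _ _ _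
          _ ≤ ∑ j ∈ BB P1 b lab1 n1 t1 α' i', 8 * 2 ^ (i - i') :=
              sum_le_sum fun j hj => T2_card2 hp hH hI hB i i' α' j hα1 hii (hmem j hj).1
                (hmem j hj).2 (by omega)
          _ = _ := by simp
      calc N1 ^ 2 * (16 * P1) * F i' = N1 * (16 * P1) * (N1 * F i') := by ring
        _ ≤ N1 * (16 * P1) * ((BB P1 b lab1 n1 t1 α' i').card * (8 * 2 ^ (i - i'))) :=
            Nat.mul_le_mul_left _ h1
        _ = (N1 * (16 * P1) * (BB P1 b lab1 n1 t1 α' i').card) * (8 * 2 ^ (i - i')) := by ring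
        _ ≤ (16 * 2 ^ i') * (8 * 2 ^ (i - i')) := Nat.mul_le_mul_right _ hBB
        _ = 128 * (2 ^ i' * 2 ^ (i - i')) := by ring
        _ = 128 * 2 ^ i := by rw [hpw]
        _ ≤ _ := Nat.le_add_right _ _
  have hsumF : N1 ^ 2 * (16 * P1) * ∑ i' ∈ Ico i1 i0, F i' ≤
      (i0 - i1) * (128 * 2 ^ i) + (2 * m + 2) * (16 * N1 * 2 ^ i) := by
    rw [mul_sum]
    refine (sum_le_sum hFb).trans ?_
    rw [sum_add_distrib]
    refine Nat.add_le_add ?_ ?_
    · rw [sum_const, smul_eq_mul, Nat.card_Ico]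
    · rw [← sum_filter, sum_const, smul_eq_mul]
      refine Nat.mul_le_mul_right _ ?_
      have h1 : (Ico i1 i0).filter (fun i' => i - i' < 2 * m + 2) ⊆
          Icc (i - (2 * m + 1)) i := by
        intro x hx
        rw [mem_filter, mem_Ico] at hx
        rw [mem_Icc]
        omega
      refine (card_le_card h1).trans ?_
      rw [Nat.card_Icc]; omega
  have hfinF : 256 * (16 * P) * ∑ i' ∈ Ico i1 i0, F i' ≤ 2 ^ i := by
    have h1 : 0 < 2 * N1 ^ 2 := by positivity
    refine Nat.le_of_mul_le_mul_left ?_ h1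
    have h2 : 16384 * Bf * (m + 1) ≤ N1 := hH.hB2
    have h3 : 65536 * Bf * (i0 - i1) ≤ N1 ^ 2 := hH.hB1
    calc 2 * N1 ^ 2 * (256 * (16 * P) * ∑ i' ∈ Ico i1 i0, F i')
        = 512 * Bf * (N1 ^ 2 * (16 * P1) * ∑ i' ∈ Ico i1 i0, F i') := by rw [hH.hP]; ring
      _ ≤ 512 * Bf * ((i0 - i1) * (128 * 2 ^ i) + (2 * m + 2) * (16 * N1 * 2 ^ i)) :=
          Nat.mul_le_mul_left _ hsumF
      _ = (65536 * Bf * (i0 - i1)) * 2 ^ i + (16384 * Bf * (m + 1)) * N1 * 2 ^ i := by ring
      _ ≤ N1 ^ 2 * 2 ^ i + N1 * N1 * 2 ^ i :=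
          Nat.add_le_add (Nat.mul_le_mul_right _ h3)
            (Nat.mul_le_mul_right _ (Nat.mul_le_mul_right _ h2))
      _ = 2 * N1 ^ 2 * 2 ^ i := by ring
  have h4 := Nat.mul_le_mul_left (256 * (16 * P)) hZ
  rw [Nat.mul_add, Nat.mul_add] at h4
  have h5 : 256 * (16 * P) * ∑ i' ∈ Icc i0 i, E i' =
      2 * (128 * (16 * P) * ∑ i' ∈ Icc i0 i, E i') := by ring
  have h6 : 256 * (16 * P) * ((Ico (2 ^ i) (2 ^ (i + 1))).filter
      (fun z : ℕ => Cls (16 * P) α z ∧ Dg b (n0 + t * P) z)).card =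
      8 * (32 * (16 * P) * ((Ico (2 ^ i) (2 ^ (i + 1))).filter
      (fun z : ℕ => Cls (16 * P) α z ∧ Dg b (n0 + t * P) z)).card) := by ring
  rw [h5, h6] at h4
  omega

end Pool.Agent.V7H76.AD
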