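import Pool.Agent.V7H76.AD.STAGE
import Pool.Agent.V7H76.AD.LAB
import Pool.Agent.V7H76.AD.U
import Pool.Agent.V7H67.AD.BLK
import Pool.Agent.V7H72.AD.STEP
import Pool.Agent.V7H84.AD.DENS
import Pool.Agent.V7H86.AD.Run
import Pool.Agent.V7H38.AD.Glue

/-! Assembly of the first part. -/

namespace Pool.Agent.V7H76.AD

theorem fin1 : S_FIN :=
  Pool.Agent.V7H38.AD.t_FIN (t_STAGE
    (Pool.Agent.V7H72.AD.t_STEP t_LAB Pool.Agent.V7H86.AD.t_CON)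
    (Pool.Agent.V7H84.AD.t_DENS (t_CNT t_U Pool.Agent.V7H67.AD.t_BLK)))

end Pool.Agent.V7H76.AD
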