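import Pool.Agent.V7H76.AD.CNT

set_option linter.all false

open Finset
open scoped Classical

namespace Pool.Agent.V7H76.AD

theorem inv_start {P m n0 i0 q0 L : ℕ} {A : Finset ℕ} {b0 : ℕ → ℕ}
    (hp : Par P m n0 i0 q0 L A b0) : Inv P n0 q0 A b0 0 q0 b0 (fun _ => 0) ∅ where
  old := fun _ _ => rfl
  rng := fun j hj => by simp at hj
  win := fun j hj => by simp at hj
  res := fun j hj => by
    have : j = 0 := by simpa using hj
    subst this
    simp [st]
  adm := fun j hj => by simp at hj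
  labA := fun r hr => by simp at hr
  bal := fun g α _ => by simp
  Usub := fun c hc => by simp at hc
  Ucnt := fun c hc => by simp at hc
  Un := fun c h1 h2 => absurd h1 (not_le.2 h2)

theorem inv_all (hSt : S_STEP) {P m n0 i0 q0 L : ℕ} {A : Finset ℕ} {b0 : ℕ → ℕ}
    (hp : Par P m n0 i0 q0 L A b0) (d : ℕ) : ∃ (t : ℕ) (b lab : ℕ → ℕ) (U : Finset ℕ),
    Inv P n0 q0 A b0 t (q0 + d) b lab U := by
  induction d with
  | zero => exact ⟨0, b0, fun _ => 0, ∅, inv_start hp⟩
  | succ d ih =>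
    obtain ⟨t, b, lab, U, hI⟩ := ih
    exact hSt P m n0 i0 q0 L A b0 hp t (q0 + d) b lab U hI (Nat.le_add_right _ _)

theorem t_STAGE (hSt : S_STEP) (hD : S_DENS) : S_STAGE := by
  intro P m n0 i0 q0 L A b0 hp
  have hP : 0 < P := by rw [hp.hP]; positivity
  have hq : q0 * 2 ^ L = q0 + (q0 * 2 ^ L - q0) := by
    have : q0 * 1 ≤ q0 * 2 ^ L := Nat.mul_le_mul_left _ Nat.one_le_two_pow
    omega
  obtain ⟨t, b, lab, U, hI⟩ := inv_all hSt hp (q0 * 2 ^ L - q0)
  rw [← hq] at hI
  have hup : q0 * 2 ^ L * (32 * P * P) = 2 ^ (i0 + L) := by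
    rw [pow_add, ← hp.hq]; ring
  refine ⟨b, n0 + t * P, Nat.le_add_right _ _, hI.old, ?_, ?_, ?_, ?_⟩
  · intro j hj hj'
    have h1 := hI.rng (j - n0) (by omega)
    rw [show n0 + (j - n0) = j by omega, hp.hq, hup] at h1
    exact h1
  · intro j hj hj'
    have h1 := winlt hp hI (j - n0) 0 (by omega)
    rw [show n0 + (j - n0) = j by omega, show n0 + (j - n0 + (0 + 1)) = j + 1 by omega] at h1
    by_contra hc
    push Not at hc
    exact absurd (Nat.div_le_div_right (c := 16 * P) hc) (not_le.2 h1)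
  · intro j hj hj'
    have h1 := hI.adm (j - n0) (by omega)
    rwa [show n0 + (j - n0) = j by omega] at h1
  · -- the sum
    have h1 : ∑ j ∈ Ico n0 (n0 + t * P), (1 : ℝ) / (b j : ℝ) =
        ∑ j ∈ range (t * P), (1 : ℝ) / (b (n0 + j) : ℝ) := by
      rw [sum_Ico_eq_sum_range]
      congr 1
      rw [Nat.add_sub_cancel_left]
    rw [h1]
    set F : ℕ → Finset ℕ := fun i => (range (t * P)).filter
      (fun j => 2 ^ i ≤ b (n0 + j) ∧ b (n0 + j) < 2 ^ (i + 1)) with hF
    have h2 : (Ico i0 (i0 + L)).biUnion F ⊆ range (t * P) := by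
      intro j hj
      rw [mem_biUnion] at hj
      obtain ⟨i, _, hj⟩ := hj
      exact (mem_filter.1 hj).1
    have h3 : ∑ j ∈ (Ico i0 (i0 + L)).biUnion F, (1 : ℝ) / (b (n0 + j) : ℝ) ≤
        ∑ j ∈ range (t * P), (1 : ℝ) / (b (n0 + j) : ℝ) :=
      sum_le_sum_of_subset_of_nonneg h2 (fun j _ _ => by positivity)
    refine le_trans ?_ h3
    rw [sum_biUnion (by
      intro x _ y _ hxy
      show Disjoint _ _
      rw [disjoint_left]
      intro r hr hr'
      rw [hF, mem_filter] at hr hr'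
      rcases Nat.lt_or_gt_of_ne hxy with h | h
      · have := Nat.pow_le_pow_right (show 0 < 2 by norm_num) (show x + 1 ≤ y from h)
        omega
      · have := Nat.pow_le_pow_right (show 0 < 2 by norm_num) (show y + 1 ≤ x from h)
        omega)]
    have h4 : ∀ i ∈ Ico i0 (i0 + L), (1 : ℝ) / (128 * P) ≤
        ∑ j ∈ F i, (1 : ℝ) / (b (n0 + j) : ℝ) := by
      intro i hi
      rw [mem_Ico] at hi
      have h5 := hD P m n0 i0 q0 L A b0 hp t b lab U hI i hi.1 hi.2
      have h6 : ∀ j ∈ F i, (1 : ℝ) / 2 ^ (i + 1) ≤ (1 : ℝ) / (b (n0 + j) : ℝ) := by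
        intro j hj
        rw [hF, mem_filter] at hj
        have h7 : 0 < b (n0 + j) := lt_of_lt_of_le (by positivity) hj.2.1
        apply one_div_le_one_div_of_le (by exact_mod_cast h7)
        exact_mod_cast hj.2.2.le
      have h7 := card_nsmul_le_sum (F i) _ _ h6
      refine le_trans ?_ h7
      rw [nsmul_eq_mul]
      have h8 : (2 : ℝ) ^ i ≤ 64 * P * ((F i).card : ℝ) := by exact_mod_cast h5
      have hPr : (0 : ℝ) < P := by exact_mod_cast hP
      rw [div_le_iff₀ (by positivity), pow_succ]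
      have hx : (0 : ℝ) < 2 ^ i := by positivity
      have h9 : ∀ c x p : ℝ, 0 < x → x ≤ 64 * p * c → 1 ≤ c * (1 / (x * 2)) * (128 * p) := by
        intro c x p hx h
        have e : c * (1 / (x * 2)) * (128 * p) = (64 * p * c) / x := by
          field_simp
          ring
        rw [e, le_div_iff₀ hx]
        linarith
      exact h9 _ _ _ hx h8
    have h5 := card_nsmul_le_sum (Ico i0 (i0 + L)) _ _ h4
    refine le_trans ?_ h5
    rw [nsmul_eq_mul, Nat.card_Ico, Nat.add_sub_cancel_left]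
    exact le_of_eq (by ring)

end Pool.Agent.V7H76.AD
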